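import Pool.Agent.Helper81.RB.Num2

set_option autoImplicit false

namespace Pool.Agent.Helper81.RB

/-- Real data of the conjugation symmetric cycle `Z = m D`, `y = m₁ P`, `D = cD + i sD`,
`P = cP + i sP`, with controls `u`, `v`. -/
structure Cyc (m m1 cD sD cP sP uR uI vR vI r : ℝ) : Prop where
  hmm : 4 * m * m1 = 1
  hD : cD^2 + sD^2 = 1
  hP : cP^2 + sP^2 = 1
  huR : uR = m1 * cP + 1 - m^2 * (cD^2 - sD^2)
  huI : uI = m1 * sP - m^2 * (2 * cD * sD)
  hvR : vR = m * cD + 1 - m1^2 * (cP^2 - sP^2)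
  hvI : vI = -(m * sD) - m1^2 * (2 * cP * sP)
  vD_re : vR = cD * uR + sD * uI
  vD_im : vI = sD * uR - cD * uI
  vP_re : vR = cP * uR - sP * uI
  vP_im : vI = cP * uI + sP * uR
  hu : uR^2 + uI^2 = r^2
  hv : vR^2 + vI^2 = r^2
  nm : |m - 237212077687/1000000000000| ≤ 1/250000000000
  nm1 : |m1 - 131738654729/125000000000| ≤ 1/250000000000
  ncD : |cD - 489772371201/1000000000000| ≤ 3/500000000
  nsD : |sD - 87185034519/100000000000| ≤ 3/500000000
  ncP : |cP - (-996992741733/1000000000000)| ≤ 3/500000000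
  nsP : |sP - 1549899747/20000000000| ≤ 3/1000000000
  nr : |r - 39886359297/1000000000000| ≤ 11/1000000000
  nuR : |uR - (-2146583921/100000000000)| ≤ 3/100000000
  nuI : |uI - 42021933/1250000000| ≤ 1/125000000
  nvR : |vR - 375921887/20000000000| ≤ 9/100000000
  nvI : |vI - (-3517994461/100000000000)| ≤ 3/100000000

theorem exists_cyc : ∃ t m m1 cD sD cP sP uR uI vR vI r : ℝ,
    |t - 51644852620777/20000000000000| ≤ 1/20000000000000 ∧ q8 t = 0 ∧ r^2 = Rf t ∧
    Cyc m m1 cD sD cP sP uR uI vR vI r := by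
  obtain ⟨t, ht0, ht⟩ := exists_t
  have h1 : |t - 51644852620777/20000000000000| ≤ 1/20000000000000 := by
    have e1 : (51644852620777/20000000000000 : ℝ) = 258224263103885/10^14 := by norm_num
    have e2 : (1/20000000000000 : ℝ) = 5/10^14 := by norm_num
    rw [e1, e2]; exact ht0
  have hpos : 0 ≤ t^2/4 - 1 := by
    rw [abs_le] at h1
    nlinarith [h1.1, h1.2]
  set e : ℝ := Real.sqrt (t^2/4 - 1) with hedef
  have he : e^2 = t^2/4 - 1 := Real.sq_sqrt hpos
  have he' : (-e)^2 = t^2/4 - 1 := by rw [neg_sq]; exact he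
  have hen := e_app t h1
  rw [← hedef] at hen
  obtain ⟨nm, nm1, ncD, ncP, nw⟩ := num t e h1 hen
  have hR0 := Rf_app t h1
  have hN1 := full_N1 t e ht he
  have hR1 := full_R1 t e ht he
  have hI1 := full_I1 t e ht he
  have hU := full_U t e ht he
  have hR1' := full_R1 t (-e) ht he'
  have hI1' := full_I1 t (-e) ht he'
  rw [neg_neg] at hR1' hI1'
  have hw' : wf t (-e) = - wf t e := by unfold wf; ring
  rw [hw'] at hR1' hI1'
  have hmm : 4 * mf t e * mf t (-e) = 1 := by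
    unfold mf; linear_combination (-1) * he
  set m := mf t e
  set m1 := mf t (-e)
  set cD := cf t e
  set cP := cf t (-e)
  set w := wf t e
  have hcD1 : 0 < 1 - cD^2 := by
    rw [abs_le] at ncD
    nlinarith [ncD.1, ncD.2]
  set sD : ℝ := Real.sqrt (1 - cD^2) with hsDdef
  have hsD : sD^2 = 1 - cD^2 := Real.sq_sqrt hcD1.le
  have hsDpos : 0 < sD := Real.sqrt_pos.mpr hcD1
  have nsD := sD_app cD ncD
  rw [← hsDdef] at nsD
  have nsP := sP_app w sD nw nsD
  set sP : ℝ := w / sD with hsPdef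
  have hsP : sP * sD = w := by rw [hsPdef]; field_simp
  have hP : cP^2 + sP^2 = 1 := by
    have h2 : sD^2 * (cP^2 + sP^2 - 1) = 0 := by
      have : (sP * sD)^2 - (1 - cP^2)*(1 - cD^2) = 0 := by rw [hsP]; exact hN1
      rw [hsD]
      have h3 : sP^2 * (1 - cD^2) - (1 - cP^2)*(1 - cD^2) = 0 := by
        rw [← hsD]; rw [← hsD] at this; linarith [this, mul_pow sP sD 2]
      linarith
    have h3 : sD^2 ≠ 0 := by positivity
    have := (mul_eq_zero.mp h2).resolve_left h3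
    linarith
  have hD : cD^2 + sD^2 = 1 := by rw [hsD]; ring
  have hsPpos : 0 < sP := by
    rw [abs_le] at nsP; linarith [nsP.1]
  obtain ⟨nuR, nuI, nvR, nvI⟩ := num2 m m1 cD sD cP sP nm nm1 ncD nsD ncP nsP
  have nr := r_app (Rf t) hR0
  set r : ℝ := Real.sqrt (Rf t) with hrdef
  have hRpos : 0 ≤ Rf t := by
    rw [abs_le] at hR0; linarith [hR0.1]
  have hr2 : r^2 = Rf t := Real.sq_sqrt hRpos
  -- relations
  have hvDre : m * cD + 1 - m1^2 * (cP^2 - sP^2)
      = cD * (m1 * cP + 1 - m^2 * (cD^2 - sD^2)) + sD * (m1 * sP - m^2 * (2 * cD * sD)) := by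
    linear_combination hR1 + (m^2 * cD) * hD + m1^2 * hP - m1 * hsP
  have hvDim : -(m * sD) - m1^2 * (2 * cP * sP)
      = sD * (m1 * cP + 1 - m^2 * (cD^2 - sD^2)) - cD * (m1 * sP - m^2 * (2 * cD * sD)) := by
    have h2 : sD * ((-(m * sD) - m1^2 * (2 * cP * sP)) -
        (sD * (m1 * cP + 1 - m^2 * (cD^2 - sD^2)) - cD * (m1 * sP - m^2 * (2 * cD * sD)))) = 0 := by
      linear_combination hI1 + (-(m) - m1*cP - 1 - m^2 * cD^2 - m^2 * sD^2) * hsD
        + (-2*m1^2*cP + m1 * cD) * hsP - m^2 * (1 - cD^2) * hD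
    have h3 := (mul_eq_zero.mp h2).resolve_left hsDpos.ne'
    linarith
  have huRe : m1 * cP + 1 - m^2 * (cD^2 - sD^2)
      = cP * (m * cD + 1 - m1^2 * (cP^2 - sP^2)) + sP * (-(m * sD) - m1^2 * (2 * cP * sP)) := by
    linear_combination hR1' + m * hsP + m^2 * hD + m1^2 * cP * hP
  have huIm : m1 * sP - m^2 * (2 * cD * sD)
      = cP * (-(m * sD) - m1^2 * (2 * cP * sP)) - sP * (m * cD + 1 - m1^2 * (cP^2 - sP^2)) := by
    have h2 : sP * ((m1 * sP - m^2 * (2 * cD * sD)) -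
        (cP * (-(m * sD) - m1^2 * (2 * cP * sP)) - sP * (m * cD + 1 - m1^2 * (cP^2 - sP^2)))) = 0 := by
      linear_combination (-1) * hI1' + (1 + m1 + m1^2 + m * cD + m1^2 * sP^2) * hP
        + (-2*m^2*cD + m * cP) * hsP
    have h3 := (mul_eq_zero.mp h2).resolve_left hsPpos.ne'
    linarith
  have hu2 : (m1 * cP + 1 - m^2 * (cD^2 - sD^2))^2 + (m1 * sP - m^2 * (2 * cD * sD))^2 = r^2 := by
    rw [hr2]
    linear_combination hU + (m1^2) * hP + (m^4 * (cD^2 + sD^2 + 1) + 2 * m^2 + 2*m1*m^2*cP) * hD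
      - 4 * m1 * m^2 * cD * hsP
  set uR := m1 * cP + 1 - m^2 * (cD^2 - sD^2) with huRdef
  set uI := m1 * sP - m^2 * (2 * cD * sD) with huIdef
  set vR := m * cD + 1 - m1^2 * (cP^2 - sP^2) with hvRdef
  set vI := -(m * sD) - m1^2 * (2 * cP * sP) with hvIdef
  refine ⟨t, m, m1, cD, sD, cP, sP, uR, uI, vR, vI, r, h1, ht, hr2, ?_⟩
  exact
    { hmm := hmm, hD := hD, hP := hP, huR := huRdef, huI := huIdef, hvR := hvRdef, hvI := hvIdef,
      vD_re := hvDre, vD_im := hvDim,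
      vP_re := by rw [huRe, huIm]; linear_combination (-vR) * hP
      vP_im := by rw [huRe, huIm]; linear_combination (-vI) * hP
      hu := hu2
      hv := by rw [hvDre, hvDim]; linear_combination (uR^2 + uI^2) * hD + hu2
      nm := nm, nm1 := nm1, ncD := ncD, nsD := nsD, ncP := ncP, nsP := nsP, nr := nr,
      nuR := nuR, nuI := nuI, nvR := nvR, nvI := nvI }

end Pool.Agent.Helper81.RB
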