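import Pool.Agent.Helper81.RB.Alg

set_option autoImplicit false
set_option maxRecDepth 100000

namespace Pool.Agent.Helper81.RB

noncomputable def mf (t e : ℝ) : ℝ := (t/2 - e)/2
noncomputable def cf (t e : ℝ) : ℝ := (Sf t - bf t * e)/2
noncomputable def wf (t e : ℝ) : ℝ := Wf t * e

/-- `mf t e` is `m`, `mf t (-e)` is `m₁`; `cf t e` is `cos arg Z`, `cf t (-e)` is `cos arg y`. -/

theorem full_N1 (t e : ℝ) (ht : q8 t = 0) (he : e^2 = t^2/4 - 1) :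
    (wf t e)^2 - (1 - (cf t (-e))^2)*(1 - (cf t e)^2) = 0 := by
  have h1 := id_N1_s t ht
  unfold cf wf
  linear_combination h1 + (-(1/16)*e^2*(bf t)^4 - (1/64)*t^2*(bf t)^4 + (1/16)*(bf t)^4 + (1/8)*(Sf t)^2*(bf t)^2 + 1*(Wf t)^2 + (1/2)*(bf t)^2) * he

theorem full_R1 (t e : ℝ) (ht : q8 t = 0) (he : e^2 = t^2/4 - 1) :
    (mf t e + (mf t e)^2)*(cf t e) + 1 - cf t e - (mf t (-e))^2*(2*(cf t (-e))^2 - 1)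
      - (mf t (-e))*(cf t (-e) * cf t e + wf t e) = 0 := by
  have h1 := id_R1_s t ht
  have h2 := id_R1_a t ht
  unfold mf cf wf
  linear_combination h1 + e * h2 + (-(1/8)*e^2*(bf t)^2 - (1/8)*t*e*(bf t)^2 - (1/16)*t^2*(bf t)^2 + (1/8)*e*(bf t)^2 - (1/4)*e*(Sf t)*(bf t) + (1/16)*t*(bf t)^2 - (1/4)*t*(Sf t)*(bf t) + (1/8)*(bf t)^2 - (1/8)*(Sf t)^2 - (1/8)*e*(bf t) + (1/8)*t*(bf t) - (1/2)*(Wf t) + (1/4)*(bf t) + (1/8)*(Sf t) + (1/4)) * he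

theorem full_I1 (t e : ℝ) (ht : q8 t = 0) (he : e^2 = t^2/4 - 1) :
    -(1 + mf t e + (mf t e)^2)*(1 - (cf t e)^2) - 2*(mf t (-e))^2*(cf t (-e))*(wf t e)
      - (mf t (-e))*(cf t (-e)*(1 - (cf t e)^2) - wf t e * cf t e) = 0 := by
  have h1 := id_I1_s t ht
  have h2 := id_I1_a t ht
  unfold mf cf wf
  linear_combination h1 + e * h2 + ((1/16)*e^2*(bf t)^3 + (1/32)*t*e*(bf t)^3 + (1/64)*t^2*(bf t)^3 - (1/16)*e*(Sf t)*(bf t)^2 - (1/4)*e^2*(bf t)*(Wf t) + (1/16)*e^2*(bf t)^2 - (1/32)*t*(Sf t)*(bf t)^2 - (1/4)*t*e*(bf t)*(Wf t) - (1/16)*t*e*(bf t)^2 - (1/8)*t^2*(bf t)*(Wf t) + (1/32)*t^2*(bf t)^2 - (1/16)*(bf t)^3 - (1/16)*(Sf t)^2*(bf t) - (1/4)*e*(bf t)*(Wf t) - (1/8)*e*(bf t)^2 - (1/4)*e*(Sf t)*(Wf t) - (1/8)*e*(Sf t)*(bf t) - (1/8)*t*(bf t)*(Wf t) + (1/16)*t*(bf t)^2 -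 (1/4)*t*(Sf t)*(Wf t) + (1/8)*t*(Sf t)*(bf t) + (1/4)*(bf t)*(Wf t) + (3/16)*(bf t)^2 + (1/4)*(Sf t)*(Wf t) + (1/4)*(Sf t)*(bf t) + (1/16)*(Sf t)^2 - (1/4)*(bf t) - (1/4)) * he

theorem full_U (t e : ℝ) (ht : q8 t = 0) (he : e^2 = t^2/4 - 1) :
    (mf t (-e))^2 + 1 + (mf t e)^4 + 2*(mf t (-e))*(cf t (-e)) - 2*(mf t e)^2*(2*(cf t e)^2 - 1)
      - 2*(mf t (-e))*(mf t e)^2*(cf t (-e)*(2*(cf t e)^2 - 1) + 2*(cf t e)*(wf t e)) = Rf t := by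
  have h1 := id_U_s t ht
  have h2 := id_U_a t ht
  unfold mf cf wf
  linear_combination h1 + e * h2 + (-(1/16)*e^4*(bf t)^3 + (1/32)*t*e^3*(bf t)^3 + (1/16)*e^3*(Sf t)*(bf t)^2 - (1/32)*t*e^2*(Sf t)*(bf t)^2 + (1/16)*e^2*(bf t)^3 + (1/16)*e^2*(Sf t)^2*(bf t) + (1/4)*e^3*(bf t)*(Wf t) - (1/32)*t*e*(bf t)^3 - (1/32)*t*e*(Sf t)^2*(bf t) - (1/8)*t*e^2*(bf t)*(Wf t) + (1/64)*t^2*(bf t)^3 - (1/16)*e*(Sf t)*(bf t)^2 - (1/16)*e*(Sf t)^3 - (1/4)*e^2*(bf t)^2 - (1/4)*e^2*(Sf t)*(Wf t) + (1/32)*t*(Sf t)*(bf t)^2 + (1/32)*t*(Sf t)^3 + (1/4)*t*e*(bf t)^2 + (1/8)*t*e*(Sf t)*(Wf t) - (1/8)*t^2*(bf t)^2 - (1/16)*(bf t)^3 - (1/16)*(Sf t)^2*(bf t) - (1/4)*e*(bf t)*(Wf t) + (1/2)*e*(Sf t)*(bf t) + (1/8)*e^2*(bf t) + (1/8)*t*(bf t)*(Wf t) - (1/2)*t*(Sf t)*(bf t) - (1/16)*t*e*(bf t) + (1/4)*(bf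 t)^2 + (1/4)*(Sf t)*(Wf t) - (1/4)*(Sf t)^2 + (1/8)*e*(Sf t) + (1/16)*e^2 - (1/16)*t*(Sf t) - (1/8)*t*e + (7/64)*t^2 + (3/8)*(bf t) + (11/16)) * he

end Pool.Agent.Helper81.RB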