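import Pool.Agent.Helper81.RB.Num3

set_option autoImplicit false

namespace Pool.Agent.Helper81.RB

open Complex

/-- If the circle `|z-a| = ρ` has a point `a + ρ(c₀ + i s₀)` at which `|z²-k|` is critical and
`a² < k`, then this is its maximum on the disc. -/
theorem disc_lemma {a ρ k c0 s0 : ℝ} (hcs : c0^2 + s0^2 = 1) (hρ : 0 < ρ) (hk : a^2 < k)
    (hT : a * (ρ^2 + a^2 - k) + 2 * ρ * (a^2 - k) * c0 = 0) {M : ℝ} (hM : 0 ≤ M)
    (hN : ((a + ρ*c0)^2 - (ρ*s0)^2 - k)^2 + (2 * (a + ρ*c0) * (ρ*s0))^2 = M^2)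
    (z : ℂ) (hz : ‖z - (a:ℂ)‖ ≤ ρ) : ‖z^2 - (k:ℂ)‖ ≤ M := by
  have hsphere : ∀ w : ℂ, ‖w - (a:ℂ)‖ = ρ → ‖w^2 - (k:ℂ)‖ ≤ M := by
    intro w hw
    have h1 : (w.re - a)^2 + w.im^2 = ρ^2 := by
      have := Complex.sq_norm (w - (a:ℂ))
      rw [hw, Complex.normSq_apply] at this
      simp only [Complex.sub_re, Complex.sub_im, Complex.ofReal_re, Complex.ofReal_im, sub_zero] at this
      nlinarith [this]
    have h2 : ‖w^2 - (k:ℂ)‖^2 = (w.re^2 - w.im^2 - k)^2 + (2 * w.re * w.im)^2 := by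
      rw [Complex.sq_norm, Complex.normSq_apply]
      simp only [pow_two, Complex.sub_re, Complex.sub_im, Complex.mul_re, Complex.mul_im,
        Complex.ofReal_re, Complex.ofReal_im, sub_zero]
      ring
    have h3 : ‖w^2 - (k:ℂ)‖^2 ≤ M^2 := by
      rw [h2, ← hN]
      -- with x = w.re - a, x0 = ρ c0
      have e1 : (w.re^2 - w.im^2 - k)^2 + (2 * w.re * w.im)^2
          = ((a + ρ*c0)^2 - (ρ*s0)^2 - k)^2 + (2 * (a + ρ*c0) * (ρ*s0))^2
            + 4 * (a^2 - k) * ((w.re - a) - ρ * c0)^2 := by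
        have hy : w.im^2 = ρ^2 - (w.re - a)^2 := by linarith
        have hs : s0^2 = 1 - c0^2 := by linarith
        have e2 : (w.re^2 - w.im^2 - k)^2 + (2 * w.re * w.im)^2
            = (w.re^2 - w.im^2 - k)^2 + 4 * w.re^2 * w.im^2 := by ring
        have e3 : ((a + ρ*c0)^2 - (ρ*s0)^2 - k)^2 + (2 * (a + ρ*c0) * (ρ*s0))^2
            = ((a + ρ*c0)^2 - ρ^2*s0^2 - k)^2 + 4 * (a + ρ*c0)^2 * ρ^2 * s0^2 := by ring
        rw [e2, e3, hy, hs]
        linear_combination (4 * (w.re - a) - 4 * ρ * c0) * hT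
      rw [e1]
      have : 4 * (a^2 - k) * ((w.re - a) - ρ * c0)^2 ≤ 0 := by
        apply mul_nonpos_of_nonpos_of_nonneg
        · linarith
        · positivity
      linarith
    exact le_of_sq_le_sq h3 hM
  have hf : frontier (Metric.ball (a:ℂ) ρ) = Metric.sphere (a:ℂ) ρ := frontier_ball _ hρ.ne'
  have hcl : closure (Metric.ball (a:ℂ) ρ) = Metric.closedBall (a:ℂ) ρ := closure_ball _ hρ.ne'
  apply Complex.norm_le_of_forall_mem_frontier_norm_le (U := Metric.ball (a:ℂ) ρ)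
    (f := fun z : ℂ => z^2 - (k:ℂ)) Metric.isBounded_ball
  · apply Differentiable.diffContOnCl
    fun_prop
  · intro w hw
    rw [hf, Metric.mem_sphere, dist_eq_norm] at hw
    exact hsphere w hw
  · rw [hcl, Metric.mem_closedBall, dist_eq_norm]
    exact hz

theorem T_eq {a ρ k c s : ℝ} (hcs : c^2 + s^2 = 1) :
    s * (a * (ρ^2 + a^2 - k) + 2 * ρ * (a^2 - k) * c)
      = ((a + ρ*c)^2 - (ρ*s)^2 - k) * ((a + ρ*c)*s + ρ*s*c)
        - 2 * (a + ρ*c) * (ρ*s) * ((a + ρ*c)*c - ρ*s*s) := by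
  linear_combination (-(a * ρ^2 * s)) * hcs

/-- The two invariant discs. -/
theorem two_discs {m m1 cD sD cP sP uR uI vR vI r : ℝ}
    (C : Cyc m m1 cD sD cP sP uR uI vR vI r) :
    ∃ a ρ b σ : ℝ, |a| ≤ ρ ∧
      (∀ z : ℂ, ‖z - (a:ℂ)‖ ≤ ρ → ∀ c' : ℂ, ‖c' - (-1)‖ ≤ r → ‖z^2 + c' - (b:ℂ)‖ ≤ σ) ∧
      (∀ z : ℂ, ‖z - (b:ℂ)‖ ≤ σ → ∀ c' : ℂ, ‖c' - (-1)‖ ≤ r → ‖z^2 + c' - (a:ℂ)‖ ≤ ρ) := by
  obtain ⟨hs0, hc0, hs1, hc1, hrho, hsig, ha, hb⟩ := num3 C
  have hr : 0 < r := by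
    have := C.nr
    rw [abs_le] at this; linarith [this.1]
  have hru : r < 4/100 := by
    have := C.nr
    rw [abs_le] at this; linarith [this.2]
  set s0 := -vI / r with hs0d
  set c0 := vR / r with hc0d
  set s1 := uI / r with hs1d
  set c1 := uR / r with hc1d
  set ρ := m * sD / s0 with hρd
  set σ := m1 * sP / s1 with hσd
  set a := m * cD - ρ * c0 with had
  set b := m1 * cP - σ * c1 with hbd
  rw [abs_le] at hs0 hc0 hs1 hc1 hrho hsig ha hb
  have hs0p : 0 < s0 := by linarith [hs0.1]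
  have hs1p : 0 < s1 := by linarith [hs1.1]
  have rs0 : r * s0 = -vI := by rw [hs0d]; field_simp
  have rc0 : r * c0 = vR := by rw [hc0d]; field_simp
  have rs1 : r * s1 = uI := by rw [hs1d]; field_simp
  have rc1 : r * c1 = uR := by rw [hc1d]; field_simp
  have hρs : ρ * s0 = m * sD := by rw [hρd]; field_simp
  have hσs : σ * s1 = m1 * sP := by rw [hσd]; field_simp
  have hX : a + ρ * c0 = m * cD := by rw [had]; ring
  have hX' : b + σ * c1 = m1 * cP := by rw [hbd]; ring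
  clear_value s0 c0 s1 c1 ρ σ a b
  have hr2 : r^2 ≠ 0 := by positivity
  have hcs0 : c0^2 + s0^2 = 1 := by
    have h1 : r^2 * (c0^2 + s0^2) = r^2 := by
      have : r^2 * (c0^2 + s0^2) = (r*c0)^2 + (r*s0)^2 := by ring
      rw [this, rc0, rs0, ← C.hv]; ring
    exact mul_left_cancel₀ hr2 (by rw [h1, mul_one])
  have hcs1 : c1^2 + s1^2 = 1 := by
    have h1 : r^2 * (c1^2 + s1^2) = r^2 := by
      have : r^2 * (c1^2 + s1^2) = (r*c1)^2 + (r*s1)^2 := by ring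
      rw [this, rc1, rs1, ← C.hu]
    exact mul_left_cancel₀ hr2 (by rw [h1, mul_one])
  -- first disc
  have A1 : (a + ρ*c0)^2 - (ρ*s0)^2 - (1 + b) = (σ - r) * c1 := by
    rw [hX, hρs]
    have := C.huR
    linear_combination -hX' + rc1 + this
  have A2 : 2 * (a + ρ*c0) * (ρ*s0) = (σ - r) * s1 := by
    rw [hX, hρs]
    have := C.huI
    linear_combination -hσs + rs1 + this
  have T1 : a * (ρ^2 + a^2 - (1+b)) + 2 * ρ * (a^2 - (1+b)) * c0 = 0 := by
    have h1 := T_eq (a := a) (ρ := ρ) (k := 1 + b) hcs0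
    rw [A1, A2, hX, hρs] at h1
    have h2 : r^2 * (s0 * (a * (ρ^2 + a^2 - (1+b)) + 2 * ρ * (a^2 - (1+b)) * c0)) = 0 := by
      rw [h1]
      have e1 : r^2 * ((σ - r) * c1 * (m * cD * s0 + m * sD * c0) -
          (σ - r) * s1 * (m * cD * c0 - m * sD * s0))
          = (σ - r) * m * ((r*c1) * (cD * (r*s0) + sD * (r*c0)) - (r*s1) * (cD * (r*c0) - sD * (r*s0))) := by
        ring
      rw [e1, rc1, rs1, rc0, rs0]
      have e2 := C.vD_re
      have e3 := C.vD_im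
      have e4 : uR * (cD * -vI + sD * vR) - uI * (cD * vR - sD * -vI) = 0 := by
        linear_combination vI * e2 - vR * e3
      rw [e4]; ring
    have h3 := (mul_eq_zero.mp h2).resolve_left hr2
    exact (mul_eq_zero.mp h3).resolve_left hs0p.ne'
  -- second disc
  have B1 : (b + σ*c1)^2 - (σ*s1)^2 - (1 + a) = (ρ - r) * c0 := by
    rw [hX', hσs]
    have := C.hvR
    linear_combination -hX + rc0 + this
  have B2 : 2 * (b + σ*c1) * (σ*s1) = -((ρ - r) * s0) := by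
    rw [hX', hσs]
    have := C.hvI
    linear_combination hρs - rs0 + this
  have T2 : b * (σ^2 + b^2 - (1+a)) + 2 * σ * (b^2 - (1+a)) * c1 = 0 := by
    have h1 := T_eq (a := b) (ρ := σ) (k := 1 + a) hcs1
    rw [B1, B2, hX', hσs] at h1
    have h2 : r^2 * (s1 * (b * (σ^2 + b^2 - (1+a)) + 2 * σ * (b^2 - (1+a)) * c1)) = 0 := by
      rw [h1]
      have e1 : r^2 * ((ρ - r) * c0 * (m1 * cP * s1 + m1 * sP * c1) -
          -((ρ - r) * s0) * (m1 * cP * c1 - m1 * sP * s1))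
          = (ρ - r) * m1 * ((r*c0) * (cP * (r*s1) + sP * (r*c1)) + (r*s0) * (cP * (r*c1) - sP * (r*s1))) := by
        ring
      rw [e1, rc1, rs1, rc0, rs0]
      have e2 := C.vP_re
      have e3 := C.vP_im
      have e4 : vR * (cP * uI + sP * uR) + -vI * (cP * uR - sP * uI) = 0 := by
        linear_combination vI * e2 - vR * e3
      rw [e4]; ring
    have h3 := (mul_eq_zero.mp h2).resolve_left hr2
    exact (mul_eq_zero.mp h3).resolve_left hs1p.ne'
  refine ⟨a, ρ, b, σ, ?_, ?_, ?_⟩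
  · rw [abs_le]; constructor <;> linarith [ha.1, ha.2, hrho.1]
  · intro z hz c' hc'
    have hN : ((a + ρ*c0)^2 - (ρ*s0)^2 - (1+b))^2 + (2 * (a + ρ*c0) * (ρ*s0))^2 = (σ - r)^2 := by
      rw [A1, A2]; linear_combination (σ - r)^2 * hcs1
    have hk : a^2 < 1 + b := by
      have : a^2 < (1/100)^2 := sq_lt_sq' (by linarith [ha.1]) (by linarith [ha.2])
      linarith [hb.1]
    have h1 := disc_lemma hcs0 (by linarith [hrho.1]) hk T1
      (M := σ - r) (by linarith [hsig.1]) hN z hz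
    have h2 : z^2 + c' - (b:ℂ) = (z^2 - ((1 + b : ℝ) : ℂ)) + (c' - (-1)) := by
      push_cast; ring
    rw [h2]
    have := norm_add_le (z^2 - ((1 + b : ℝ) : ℂ)) (c' - (-1))
    linarith
  · intro z hz c' hc'
    have hN : ((b + σ*c1)^2 - (σ*s1)^2 - (1+a))^2 + (2 * (b + σ*c1) * (σ*s1))^2 = (ρ - r)^2 := by
      rw [B1, B2]; linear_combination (ρ - r)^2 * hcs0
    have hk : b^2 < 1 + a := by
      have : b^2 < (9987/10000)^2 := sq_lt_sq' (by linarith [hb.1]) (by linarith [hb.2])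
      linarith [ha.1]
    have h1 := disc_lemma hcs1 (by linarith [hsig.1]) hk T2
      (M := ρ - r) (by linarith [hrho.1]) hN z hz
    have h2 : z^2 + c' - (a:ℂ) = (z^2 - ((1 + a : ℝ) : ℂ)) + (c' - (-1)) := by
      push_cast; ring
    rw [h2]
    have := norm_add_le (z^2 - ((1 + a : ℝ) : ℂ)) (c' - (-1))
    linarith

end Pool.Agent.Helper81.RB
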