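import Pool.Agent.Helper81.RB.Num4

set_option autoImplicit false

namespace Pool.Agent.Helper81.RB

open Complex

/-- the one-dimensional step inequality along the ray through `D` -/
theorem step_real {m m1 cD sD cP sP uR uI vR vI r : ℝ}
    (C : Cyc m m1 cD sD cP sP uR uI vR vI r) (s : ℝ) (hs : 1/10 ≤ s) (hs' : s ≤ 4/10) :
    ((((cD^2 - sD^2) * s^2 + uR - 1)^2 - ((2 * cD * sD) * s^2 + uI)^2 - 1) - cD * s)^2
      + (2 * ((cD^2 - sD^2) * s^2 + uR - 1) * ((2 * cD * sD) * s^2 + uI) + sD * s)^2 ≤ r^2 := by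
  obtain ⟨-, -, hp4, hq4, ha2, hb2⟩ := num4 C
  have hm1 : (cD^2 - sD^2) * m^2 + uR - 1 = m1 * cP := by linear_combination C.huR
  have hm2 : (2 * cD * sD) * m^2 + uI = m1 * sP := by linear_combination C.huI
  have hx : (((cD^2 - sD^2) * m^2 + uR - 1)^2 - ((2 * cD * sD) * m^2 + uI)^2 - 1) - cD * m = -vR := by
    rw [hm1, hm2]; linear_combination C.hvR
  have hy : 2 * ((cD^2 - sD^2) * m^2 + uR - 1) * ((2 * cD * sD) * m^2 + uI) + sD * m = -vI := by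
    rw [hm1, hm2]; linear_combination C.hvI
  have key1 : (((cD^2 - sD^2) * s^2 + uR - 1)^2 - ((2 * cD * sD) * s^2 + uI)^2 - 1) - cD * s
      = -vR + (s - m) * (((cD^2 - sD^2)^2 - (2 * cD * sD)^2) * (s^3 + m*s^2 + m^2*s + m^3)
          + 2 * ((cD^2 - sD^2) * (uR - 1) - (2 * cD * sD) * uI) * (s + m) - cD) := by
    rw [← hx]; ring
  have key2 : 2 * ((cD^2 - sD^2) * s^2 + uR - 1) * ((2 * cD * sD) * s^2 + uI) + sD * s
      = -vI + (s - m) * ((2 * (cD^2 - sD^2) * (2 * cD * sD)) * (s^3 + m*s^2 + m^2*s + m^3)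
          + 2 * ((cD^2 - sD^2) * uI + (2 * cD * sD) * (uR - 1)) * (s + m) + sD) := by
    rw [← hy]; ring
  have crit : vR * (((cD^2 - sD^2)^2 - (2 * cD * sD)^2) * (4 * m^3)
          + 2 * ((cD^2 - sD^2) * (uR - 1) - (2 * cD * sD) * uI) * (2 * m) - cD)
      + vI * ((2 * (cD^2 - sD^2) * (2 * cD * sD)) * (4 * m^3)
          + 2 * ((cD^2 - sD^2) * uI + (2 * cD * sD) * (uR - 1)) * (2 * m) + sD) = 0 := by
    have h1 : ((cD^2 - sD^2)^2 - (2 * cD * sD)^2) * (4 * m^3)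
          + 2 * ((cD^2 - sD^2) * (uR - 1) - (2 * cD * sD) * uI) * (2 * m)
        = (cD^2 - sD^2) * cP - (2 * cD * sD) * sP := by
      linear_combination 4 * m * (cD^2 - sD^2) * hm1 - 4 * m * (2 * cD * sD) * hm2
        + ((cD^2 - sD^2) * cP - (2 * cD * sD) * sP) * C.hmm
    have h2 : (2 * (cD^2 - sD^2) * (2 * cD * sD)) * (4 * m^3)
          + 2 * ((cD^2 - sD^2) * uI + (2 * cD * sD) * (uR - 1)) * (2 * m)
        = (cD^2 - sD^2) * sP + (2 * cD * sD) * cP := by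
      linear_combination 4 * m * (cD^2 - sD^2) * hm2 + 4 * m * (2 * cD * sD) * hm1
        + ((cD^2 - sD^2) * sP + (2 * cD * sD) * cP) * C.hmm
    rw [h1, h2]
    linear_combination ((cD^2 - sD^2) * cP - (2 * cD * sD) * sP) * C.vD_re
      + ((cD^2 - sD^2) * sP + (2 * cD * sD) * cP) * C.vD_im
      + (cD * (cP * uR - sP * uI) - sD * (cP * uI + sP * uR)) * C.hD
      - cD * C.vP_re + sD * C.vP_im
  obtain ⟨p4, hp4d⟩ : ∃ x, x = (cD^2 - sD^2)^2 - (2 * cD * sD)^2 := ⟨_, rfl⟩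
  obtain ⟨q4, hq4d⟩ : ∃ x, x = 2 * (cD^2 - sD^2) * (2 * cD * sD) := ⟨_, rfl⟩
  obtain ⟨a2, ha2d⟩ : ∃ x, x = 2 * ((cD^2 - sD^2) * (uR - 1) - (2 * cD * sD) * uI) := ⟨_, rfl⟩
  obtain ⟨b2, hb2d⟩ : ∃ x, x = 2 * ((cD^2 - sD^2) * uI + (2 * cD * sD) * (uR - 1)) := ⟨_, rfl⟩
  rw [← hp4d] at hp4 key1 crit
  rw [← hq4d] at hq4 key2 crit
  rw [← ha2d] at ha2 key1 crit
  rw [← hb2d] at hb2 key2 crit
  rw [key1, key2]
  obtain ⟨c0, c1, c2, c3, c4, c5, c6⟩ := num5 m cD sD vR vI p4 q4 a2 b2 C.nm C.ncD C.nsD C.nvR C.nvI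
    hp4 hq4 ha2 hb2
  have hE := poly_neg s _ _ _ _ _ _ _ hs hs' c0 c1 c2 c3 c4 c5 c6
  have hv := C.hv
  have hfin : (-vR + (s - m) * (p4 * (s^3 + m*s^2 + m^2*s + m^3) + a2 * (s + m) - cD))^2
      + (-vI + (s - m) * (q4 * (s^3 + m*s^2 + m^2*s + m^3) + b2 * (s + m) + sD))^2
      = r^2 + (s - m)^2 *
        (((m^3 * p4 + m * a2 - cD) * (m^3 * p4 + m * a2 - cD) + (m^3 * q4 + m * b2 + sD) * (m^3 * q4 + m * b2 + sD)) - 2 * (3 * (vR * (m^2 * p4) + vI * (m^2 * q4)) + (vR * a2 + vI * b2))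
        + (2 * ((m^2 * p4 + a2) * (m^3 * p4 + m * a2 - cD) + (m^2 * q4 + b2) * (m^3 * q4 + m * b2 + sD)) - 4 * (vR * (m * p4) + vI * (m * q4))) * s
        + (((m^2 * p4 + a2) * (m^2 * p4 + a2) + (m^2 * q4 + b2) * (m^2 * q4 + b2)) + 2 * ((m * p4) * (m^3 * p4 + m * a2 - cD) + (m * q4) * (m^3 * q4 + m * b2 + sD)) - 2 * (vR * p4 + vI * q4)) * s^2
        + (2 * ((p4) * (m^3 * p4 + m * a2 - cD) + (q4) * (m^3 * q4 + m * b2 + sD)) + 2 * ((m * p4) * (m^2 * p4 + a2) + (m * q4) * (m^2 * q4 + b2))) * s^3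
        + (((m * p4) * (m * p4) + (m * q4) * (m * q4)) + 2 * ((p4) * (m^2 * p4 + a2) + (q4) * (m^2 * q4 + b2))) * s^4
        + (2 * ((p4) * (m * p4) + (q4) * (m * q4))) * s^5
        + ((p4) * (p4) + (q4) * (q4)) * s^6) := by
    linear_combination hv - 2 * (s - m) * crit
  rw [hfin]
  have h2 : 0 ≤ (s - m)^2 := sq_nonneg _
  have := mul_nonpos_of_nonneg_of_nonpos h2 hE
  linarith

end Pool.Agent.Helper81.RB
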