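import Pool.Agent.Helper81.RB.Lower
import Pool.Agent.Helper81.RB.Upper
import Pool.Agent.Helper81.RB.Octic

set_option autoImplicit false

namespace Pool.Agent.Helper81.RB

open Complex

/-- start of the chain -/
theorem start_real {m m1 cD sD cP sP uR uI vR vI r : ℝ}
    (C : Cyc m m1 cD sD cP sP uR uI vR vI r) :
    ((uR - 1)^2 - uI^2 - 1 - cD * (1/10))^2 + (2 * (uR - 1) * uI + sD * (1/10))^2 ≤ r^2 := by
  have nuR := C.nuR
  have nuI := C.nuI
  have ncD := C.ncD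
  have nsD := C.nsD
  have nr := C.nr
  rw [abs_le] at nuR nuI ncD nsD nr
  have u1 : -(2147/100000) ≤ uR := by linarith [nuR.1]
  have u2 : uR ≤ -(2146/100000) := by linarith [nuR.2]
  have w1 : 3361/100000 ≤ uI := by linarith [nuI.1]
  have w2 : uI ≤ 3362/100000 := by linarith [nuI.2]
  have x1 : |(uR - 1)^2 - uI^2 - 1 - cD * (1/10)| ≤ 7/1000 := by
    rw [abs_le]
    constructor
    · nlinarith [sq_nonneg uR, sq_nonneg uI, ncD.1, ncD.2]
    · nlinarith [sq_nonneg uR, sq_nonneg uI, ncD.1, ncD.2]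
  have x2 : |2 * (uR - 1) * uI + sD * (1/10)| ≤ 19/1000 := by
    rw [abs_le]
    constructor
    · nlinarith [nsD.1, nsD.2]
    · nlinarith [nsD.1, nsD.2]
  have y1 : ((uR - 1)^2 - uI^2 - 1 - cD * (1/10))^2 ≤ (7/1000)^2 := sq_le_sq' (by
    rw [abs_le] at x1; linarith [x1.1]) (by rw [abs_le] at x1; linarith [x1.2])
  have y2 : (2 * (uR - 1) * uI + sD * (1/10))^2 ≤ (19/1000)^2 := sq_le_sq' (by
    rw [abs_le] at x2; linarith [x2.1]) (by rw [abs_le] at x2; linarith [x2.2])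
  have y3 : (39/1000)^2 ≤ r^2 := by
    apply pow_le_pow_left₀ (by norm_num)
    linarith [nr.1]
  linarith

/-- exit from the ray -/
theorem exit_real {m m1 cD sD cP sP uR uI vR vI r : ℝ}
    (C : Cyc m m1 cD sD cP sP uR uI vR vI r) :
    (-(1103/1000) - (((4/10) * cD)^2 - ((4/10) * sD)^2 - 1))^2
      + (171/1000 - 2 * ((4/10) * cD) * ((4/10) * sD))^2 ≤ (398/10000)^2 := by
  have ncD := C.ncD
  have nsD := C.nsD
  rw [abs_le] at ncD nsD
  have c1 : 48977/100000 ≤ cD := by linarith [ncD.1]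
  have c2 : cD ≤ 48978/100000 := by linarith [ncD.2]
  have d1 : 87184/100000 ≤ sD := by linarith [nsD.1]
  have d2 : sD ≤ 87186/100000 := by linarith [nsD.2]
  have x1 : |-(1103/1000) - (((4/10) * cD)^2 - ((4/10) * sD)^2 - 1)| ≤ 198/10000 := by
    rw [abs_le]
    constructor
    · nlinarith
    · nlinarith
  have x2 : |171/1000 - 2 * ((4/10) * cD) * ((4/10) * sD)| ≤ 3438/100000 := by
    rw [abs_le]
    constructor
    · nlinarith
    · nlinarith
  have y1 : (-(1103/1000) - (((4/10) * cD)^2 - ((4/10) * sD)^2 - 1))^2 ≤ (198/10000)^2 :=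
    sq_le_sq' (by rw [abs_le] at x1; linarith [x1.1]) (by rw [abs_le] at x1; linarith [x1.2])
  have y2 : (171/1000 - 2 * ((4/10) * cD) * ((4/10) * sD))^2 ≤ (3438/100000)^2 :=
    sq_le_sq' (by rw [abs_le] at x2; linarith [x2.1]) (by rw [abs_le] at x2; linarith [x2.2])
  linarith

/-- An abstract version of the total orbit: any set of complex numbers closed under the moves and
conjugation is unbounded when `r < r'`. -/
theorem unbounded_of_gt {m m1 cD sD cP sP uR uI vR vI r : ℝ}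
    (C : Cyc m m1 cD sD cP sP uR uI vR vI r) {r' : ℝ} (hr' : r < r') (O : ℂ → Prop)
    (O1 : ∀ c' : ℂ, ‖c' - (-1)‖ ≤ r' → O c')
    (O2 : ∀ z c' : ℂ, O z → ‖c' - (-1)‖ ≤ r' → O (z^2 + c'))
    (O3 : ∀ z : ℂ, O z → O ((starRingEnd ℂ) z)) (B : ℝ) : ∃ z : ℂ, O z ∧ B < ‖z‖ := by
  have nr := C.nr
  rw [abs_le] at nr
  have hrpos : 0 < r := by linarith [nr.1]
  have hr398 : 398/10000 < r' := by linarith [nr.1]
  have hrp : 0 ≤ r' := by linarith
  -- move to any point close to z²-1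
  have O2' : ∀ z w : ℂ, O z → ‖w - (z^2 - 1)‖ ≤ r' → O w := by
    intro z w hz hw
    have := O2 z (w - z^2) hz (by
      have e : w - z^2 - (-1) = w - (z^2 - 1) := by ring
      rw [e]; exact hw)
    have e : z^2 + (w - z^2) = w := by ring
    rwa [e] at this
  have nrm : ∀ x y R : ℝ, 0 ≤ R → x^2 + y^2 ≤ R^2 → ‖(⟨x, y⟩ : ℂ)‖ ≤ R := by
    intro x y R hR h
    apply le_of_sq_le_sq _ hR
    rw [Complex.sq_norm, Complex.normSq_apply]
    simp only
    nlinarith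
  have D1 : ‖(⟨cD, sD⟩ : ℂ)‖ = 1 := by
    have h := Complex.sq_norm (⟨cD, sD⟩ : ℂ)
    rw [Complex.normSq_apply] at h
    simp only at h
    have h2 : ‖(⟨cD, sD⟩ : ℂ)‖^2 = 1 := by rw [h]; linarith [C.hD]
    have h3 := norm_nonneg (⟨cD, sD⟩ : ℂ)
    nlinarith
  have D1' : ‖(⟨cD, -sD⟩ : ℂ)‖ = 1 := by
    have h := Complex.sq_norm (⟨cD, -sD⟩ : ℂ)
    rw [Complex.normSq_apply] at h
    simp only at h
    have h2 : ‖(⟨cD, -sD⟩ : ℂ)‖^2 = 1 := by rw [h]; linarith [C.hD]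
    have h3 := norm_nonneg (⟨cD, -sD⟩ : ℂ)
    nlinarith
  -- the ray
  have step : ∀ s s2 : ℝ, 1/10 ≤ s → s ≤ 4/10 → s ≤ s2 → s2 ≤ s + (r' - r) →
      O (⟨s * cD, s * sD⟩ : ℂ) → O (⟨s2 * cD, s2 * sD⟩ : ℂ) := by
    intro s s2 h1 h2 h3 h4 hO
    have hA : O (⟨(cD^2 - sD^2) * s^2 + uR - 1, (2 * cD * sD) * s^2 + uI⟩ : ℂ) := by
      apply O2' _ _ hO
      have e : (⟨(cD^2 - sD^2) * s^2 + uR - 1, (2 * cD * sD) * s^2 + uI⟩ : ℂ) -
          ((⟨s * cD, s * sD⟩ : ℂ)^2 - 1) = (⟨uR, uI⟩ : ℂ) := by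
        apply Complex.ext <;> simp [pow_two] <;> ring
      rw [e]
      exact (nrm _ _ r hrpos.le C.hu.le).trans hr'.le
    have hB : O (⟨s2 * cD, -(s2 * sD)⟩ : ℂ) := by
      apply O2' _ _ hA
      have hstep := step_real C s h1 h2
      have e : (⟨s2 * cD, -(s2 * sD)⟩ : ℂ) -
          ((⟨(cD^2 - sD^2) * s^2 + uR - 1, (2 * cD * sD) * s^2 + uI⟩ : ℂ)^2 - 1)
          = ((s2 - s : ℝ) : ℂ) * (⟨cD, -sD⟩ : ℂ) -
            (⟨(((cD^2 - sD^2) * s^2 + uR - 1)^2 - ((2 * cD * sD) * s^2 + uI)^2 - 1) - cD * s,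
              2 * ((cD^2 - sD^2) * s^2 + uR - 1) * ((2 * cD * sD) * s^2 + uI) + sD * s⟩ : ℂ) := by
        apply Complex.ext <;> simp [pow_two] <;> ring
      rw [e]
      have n1 : ‖((s2 - s : ℝ) : ℂ) * (⟨cD, -sD⟩ : ℂ)‖ ≤ r' - r := by
        rw [norm_mul, D1', mul_one, Complex.norm_real, Real.norm_eq_abs, abs_of_nonneg (by linarith)]
        linarith
      have n2 := nrm _ _ r hrpos.le hstep
      have := norm_sub_le (((s2 - s : ℝ) : ℂ) * (⟨cD, -sD⟩ : ℂ))
        (⟨(((cD^2 - sD^2) * s^2 + uR - 1)^2 - ((2 * cD * sD) * s^2 + uI)^2 - 1) - cD * s,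
              2 * ((cD^2 - sD^2) * s^2 + uR - 1) * ((2 * cD * sD) * s^2 + uI) + sD * s⟩ : ℂ)
      linarith
    have hC := O3 _ hB
    have e : (starRingEnd ℂ) (⟨s2 * cD, -(s2 * sD)⟩ : ℂ) = (⟨s2 * cD, s2 * sD⟩ : ℂ) := by
      apply Complex.ext <;> simp
    rwa [e] at hC
  have start : O (⟨(1/10) * cD, (1/10) * sD⟩ : ℂ) := by
    have hA : O (⟨uR - 1, uI⟩ : ℂ) := by
      apply O1
      have e : (⟨uR - 1, uI⟩ : ℂ) - (-1) = (⟨uR, uI⟩ : ℂ) := by
        apply Complex.ext <;> simp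
      rw [e]
      exact (nrm _ _ r hrpos.le C.hu.le).trans hr'.le
    have hB : O (⟨(1/10) * cD, -((1/10) * sD)⟩ : ℂ) := by
      apply O2' _ _ hA
      have hs := start_real C
      have e : (⟨(1/10) * cD, -((1/10) * sD)⟩ : ℂ) - ((⟨uR - 1, uI⟩ : ℂ)^2 - 1)
          = (⟨-((uR - 1)^2 - uI^2 - 1 - cD * (1/10)), -(2 * (uR - 1) * uI + sD * (1/10))⟩ : ℂ) := by
        apply Complex.ext <;> simp [pow_two] <;> ring
      rw [e]
      refine (nrm _ _ r hrpos.le ?_).trans hr'.le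
      linarith
    have hC := O3 _ hB
    have e : (starRingEnd ℂ) (⟨(1/10) * cD, -((1/10) * sD)⟩ : ℂ)
        = (⟨(1/10) * cD, (1/10) * sD⟩ : ℂ) := by
      apply Complex.ext <;> simp
    rwa [e] at hC
  have hδ : 0 < r' - r := by linarith
  have ray : ∀ n : ℕ, O (⟨(min (4/10) (1/10 + n * (r' - r))) * cD,
      (min (4/10) (1/10 + n * (r' - r))) * sD⟩ : ℂ) := by
    intro n
    induction n with
    | zero =>
      have e : min (4/10 : ℝ) (1/10 + ((0:ℕ):ℝ) * (r' - r)) = 1/10 := by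
        rw [Nat.cast_zero, zero_mul, add_zero]; norm_num
      rw [e]; exact start
    | succ n ih =>
      have hn : (0:ℝ) ≤ n * (r' - r) := by positivity
      refine step _ _ ?_ ?_ ?_ ?_ ih
      · exact le_min (by norm_num) (by linarith)
      · exact min_le_left _ _
      · push_cast
        exact min_le_min le_rfl (by nlinarith)
      · push_cast
        rw [← min_add_add_right]
        exact min_le_min (by linarith) (by nlinarith)
  have h04 : O (⟨(4/10) * cD, (4/10) * sD⟩ : ℂ) := by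
    obtain ⟨n, hn⟩ := exists_nat_gt (1 / (r' - r))
    have h1 : 1 < n * (r' - r) := by
      rw [div_lt_iff₀ hδ] at hn; exact hn
    have := ray n
    rw [min_eq_left (by linarith)] at this
    exact this
  -- the rational chain
  have q : ∀ x y x' y' : ℝ, (x' - (x^2 - y^2 - 1))^2 + (y' - 2 * x * y)^2 ≤ (398/10000)^2 →
      O (⟨x, y⟩ : ℂ) → O (⟨x', y'⟩ : ℂ) := by
    intro x y x' y' h hO
    apply O2' _ _ hO
    have e : (⟨x', y'⟩ : ℂ) - ((⟨x, y⟩ : ℂ)^2 - 1)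
        = (⟨x' - (x^2 - y^2 - 1), y' - 2 * x * y⟩ : ℂ) := by
      apply Complex.ext <;> simp [pow_two] <;> ring
    rw [e]
    exact (nrm _ _ (398/10000) (by norm_num) h).trans hr398.le
  have z1 := q _ _ (-(1103/1000)) (171/1000) (exit_real C) h04
  have z2 := q _ _ (207/1000) (-(411/1000)) (by norm_num) z1
  have z3 := q _ _ (-(577/500)) (-(99/500)) (by norm_num) z2
  have z4 := q _ _ (39/125) (491/1000) (by norm_num) z3
  have z5 := q _ _ (-(1163/1000)) (341/1000) (by norm_num) z4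
  have z6 := q _ _ (247/1000) (-(831/1000)) (by norm_num) z5
  have z7 := q _ _ (-(208/125)) (-(43/100)) (by norm_num) z6
  have z8 := q _ _ (403/250) (1459/1000) (by norm_num) z7
  have esc : ∀ n : ℕ, ∃ z : ℂ, O z ∧ 2.1 + n ≤ ‖z‖ := by
    intro n
    induction n with
    | zero =>
      refine ⟨_, z8, ?_⟩
      rw [Nat.cast_zero, add_zero]
      apply le_of_sq_le_sq _ (norm_nonneg _)
      rw [Complex.sq_norm, Complex.normSq_apply]
      norm_num
    | succ n ih =>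
      obtain ⟨z, hz, hz2⟩ := ih
      refine ⟨z^2 - 1, O2' z _ hz (by simpa using hrp), ?_⟩
      have h1 : ‖z‖^2 - 1 ≤ ‖z^2 - 1‖ := by
        have := norm_sub_norm_le (z^2) 1
        rw [norm_pow, norm_one] at this
        exact this
      push_cast
      have hn : (0:ℝ) ≤ n := Nat.cast_nonneg n
      nlinarith
  obtain ⟨n, hn⟩ := exists_nat_gt B
  obtain ⟨z, hz, hz2⟩ := esc n
  exact ⟨z, hz, by linarith⟩

/-- The octic polynomial. -/
noncomputable def oct (T : ℝ) : ℝ :=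
  30517578125*T^8 - 2090937500000*T^7 + 151988969837500*T^6 + 366932312094336*T^5
    + 10972611745620350*T^4 + 43251113860921120*T^3 + 542403358868884124*T^2
    - 119457415511718464*T + 2688593226971549

theorem oct_anti {x y : ℝ} (hx : 0 ≤ x) (hxy : x < y) (hy : y ≤ 1/39) : oct y < oct x := by
  have hy0 : 0 ≤ y := hx.trans hxy.le
  have hx1 : x ≤ 1/39 := hxy.le.trans hy
  have hm : ∀ i j : ℕ, x^i * y^j ≤ (1/39 : ℝ)^(i+j) := by
    intro i j
    rw [pow_add]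
    exact mul_le_mul (pow_le_pow_left₀ hx hx1 i) (pow_le_pow_left₀ hy0 hy j) (by positivity)
      (by positivity)
  have hn : ∀ i j : ℕ, 0 ≤ x^i * y^j := fun i j => by positivity
  have key : oct x - oct y = (y - x) *
      (-(30517578125 * (x^7*y^0 + x^6*y^1 + x^5*y^2 + x^4*y^3 + x^3*y^4 + x^2*y^5 + x^1*y^6 + x^0*y^7))
       + 2090937500000 * (x^6*y^0 + x^5*y^1 + x^4*y^2 + x^3*y^3 + x^2*y^4 + x^1*y^5 + x^0*y^6)
       - 151988969837500 * (x^5*y^0 + x^4*y^1 + x^3*y^2 + x^2*y^3 + x^1*y^4 + x^0*y^5)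
       - 366932312094336 * (x^4*y^0 + x^3*y^1 + x^2*y^2 + x^1*y^3 + x^0*y^4)
       - 10972611745620350 * (x^3*y^0 + x^2*y^1 + x^1*y^2 + x^0*y^3)
       - 43251113860921120 * (x^2*y^0 + x^1*y^1 + x^0*y^2)
       - 542403358868884124 * (x + y) + 119457415511718464) := by
    unfold oct; ring
  have hpos : 0 <
      (-(30517578125 * (x^7*y^0 + x^6*y^1 + x^5*y^2 + x^4*y^3 + x^3*y^4 + x^2*y^5 + x^1*y^6 + x^0*y^7))
       + 2090937500000 * (x^6*y^0 + x^5*y^1 + x^4*y^2 + x^3*y^3 + x^2*y^4 + x^1*y^5 + x^0*y^6)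
       - 151988969837500 * (x^5*y^0 + x^4*y^1 + x^3*y^2 + x^2*y^3 + x^1*y^4 + x^0*y^5)
       - 366932312094336 * (x^4*y^0 + x^3*y^1 + x^2*y^2 + x^1*y^3 + x^0*y^4)
       - 10972611745620350 * (x^3*y^0 + x^2*y^1 + x^1*y^2 + x^0*y^3)
       - 43251113860921120 * (x^2*y^0 + x^1*y^1 + x^0*y^2)
       - 542403358868884124 * (x + y) + 119457415511718464) := by
    have a70 := hm 7 0
    have a61 := hm 6 1
    have a52 := hm 5 2
    have a43 := hm 4 3
    have a34 := hm 3 4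
    have a25 := hm 2 5
    have a16 := hm 1 6
    have a07 := hm 0 7
    have b60 := hn 6 0
    have b51 := hn 5 1
    have b42 := hn 4 2
    have b33 := hn 3 3
    have b24 := hn 2 4
    have b15 := hn 1 5
    have b06 := hn 0 6
    have c50 := hm 5 0
    have c41 := hm 4 1
    have c32 := hm 3 2
    have c23 := hm 2 3
    have c14 := hm 1 4
    have c05 := hm 0 5
    have d40 := hm 4 0
    have d31 := hm 3 1
    have d22 := hm 2 2
    have d13 := hm 1 3
    have d04 := hm 0 4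
    have e30 := hm 3 0
    have e21 := hm 2 1
    have e12 := hm 1 2
    have e03 := hm 0 3
    have f20 := hm 2 0
    have f11 := hm 1 1
    have f02 := hm 0 2
    norm_num at a70 a61 a52 a43 a34 a25 a16 a07 b60 b51 b42 b33 b24 b15 b06 c50 c41 c32 c23 c14 c05 d40 d31 d22 d13 d04 e30 e21 e12 e03 f20 f11 f02 ⊢
    linarith
  have := mul_pos (sub_pos.mpr hxy) hpos
  linarith

end Pool.Agent.Helper81.RB
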