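import Pool.Agent.Helper81.RB.Full

set_option autoImplicit false
set_option maxRecDepth 100000

namespace Pool.Agent.Helper81.RB

theorem app_mul {x y x0 y0 ε δ z0 η : ℝ} (hx : |x - x0| ≤ ε) (hy : |y - y0| ≤ δ)
    (h : |x0| * δ + |y0| * ε + ε * δ + |x0 * y0 - z0| ≤ η) : |x * y - z0| ≤ η := by
  have e1 : x * y - z0 = x0 * (y - y0) + y0 * (x - x0) + (x - x0) * (y - y0) + (x0*y0 - z0) := by
    ring
  have hε : 0 ≤ ε := le_trans (abs_nonneg _) hx
  have h1 : |x0 * (y - y0)| ≤ |x0| * δ := by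
    rw [abs_mul]; exact mul_le_mul_of_nonneg_left hy (abs_nonneg _)
  have h2 : |y0 * (x - x0)| ≤ |y0| * ε := by
    rw [abs_mul]; exact mul_le_mul_of_nonneg_left hx (abs_nonneg _)
  have h3 : |(x - x0) * (y - y0)| ≤ ε * δ := by
    rw [abs_mul]; exact mul_le_mul hx hy (abs_nonneg _) hε
  rw [e1]
  have a1 := abs_add_le (x0 * (y - y0) + y0 * (x - x0) + (x - x0) * (y - y0)) (x0*y0 - z0)
  have a2 := abs_add_le (x0 * (y - y0) + y0 * (x - x0)) ((x - x0) * (y - y0))
  have a3 := abs_add_le (x0 * (y - y0)) (y0 * (x - x0))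
  linarith

theorem app_sqrt {x x0 y0 ε η : ℝ} (hx : |x - x0| ≤ ε) (hη : η ≤ y0) (hη0 : 0 ≤ η)
    (h1 : (y0 - η)^2 ≤ x0 - ε) (h2 : x0 + ε ≤ (y0 + η)^2) : |Real.sqrt x - y0| ≤ η := by
  rw [abs_le] at hx ⊢
  constructor
  · have : y0 - η ≤ Real.sqrt x := by
      apply Real.le_sqrt_of_sq_le
      linarith [hx.1]
    linarith
  · have : Real.sqrt x ≤ y0 + η := by
      apply Real.sqrt_le_iff.mpr
      constructor
      · linarith
      · linarith [hx.2]
    linarith

theorem app_lin {x x0 ε : ℝ} (h1 : x - x0 ≤ ε) (h2 : -ε ≤ x - x0) : |x - x0| ≤ ε :=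
  abs_le.mpr ⟨h2, h1⟩

theorem q8_continuous : Continuous q8 := by unfold q8; fun_prop

theorem exists_t : ∃ t : ℝ, |t - 258224263103885/10^14| ≤ 5/10^14 ∧ q8 t = 0 := by
  have h : (258224263103880/10^14 : ℝ) ≤ 258224263103890/10^14 := by norm_num
  have hc : ContinuousOn q8 (Set.Icc (258224263103880/10^14 : ℝ) (258224263103890/10^14)) :=
    q8_continuous.continuousOn
  have hi := intermediate_value_Icc h hc
  have h0 : (0:ℝ) ∈ Set.Icc (q8 (258224263103880/10^14)) (q8 (258224263103890/10^14)) := by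
    constructor <;> (unfold q8; norm_num)
  obtain ⟨t, ht, ht0⟩ := hi h0
  refine ⟨t, ?_, ht0⟩
  rw [abs_le]
  constructor <;> linarith [ht.1, ht.2]

theorem pow_bounds (t : ℝ) (h1 : |t - (51644852620777/20000000000000)| ≤ (1/20000000000000)) :
    |t^2 - (8334971256943/1250000000000)| ≤ (1/2000000000000) ∧
    |t^3 - (172183344865293/10000000000000)| ≤ (3/1000000000000) ∧
    |t^4 - (55577396683253/1250000000000)| ≤ (1/100000000000) ∧
    |t^5 - (45924583372049/400000000000)| ≤ (1/25000000000) ∧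
    |t^6 - (2964710424900071/10000000000000)| ≤ (3/10000000000) ∧
    |t^7 - (3827800823931133/5000000000000)| ≤ (9/10000000000) ∧
    |t^8 - (19768620941361213/10000000000000)| ≤ (1/250000000) := by
  have h2 : |t^2 - (8334971256943/1250000000000)| ≤ (1/2000000000000) := by
    have e : t^2 = t * t := by ring
    rw [e]; exact app_mul h1 h1 (by norm_num [abs_of_nonneg])
  have h3 : |t^3 - (172183344865293/10000000000000)| ≤ (3/1000000000000) := by
    have e : t^3 = t^2 * t := by ring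
    rw [e]; exact app_mul h2 h1 (by norm_num [abs_of_nonneg])
  have h4 : |t^4 - (55577396683253/1250000000000)| ≤ (1/100000000000) := by
    have e : t^4 = t^3 * t := by ring
    rw [e]; exact app_mul h3 h1 (by norm_num [abs_of_nonneg])
  have h5 : |t^5 - (45924583372049/400000000000)| ≤ (1/25000000000) := by
    have e : t^5 = t^4 * t := by ring
    rw [e]; exact app_mul h4 h1 (by norm_num [abs_of_nonneg])
  have h6 : |t^6 - (2964710424900071/10000000000000)| ≤ (3/10000000000) := by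
    have e : t^6 = t^5 * t := by ring
    rw [e]; exact app_mul h5 h1 (by norm_num [abs_of_nonneg])
  have h7 : |t^7 - (3827800823931133/5000000000000)| ≤ (9/10000000000) := by
    have e : t^7 = t^6 * t := by ring
    rw [e]; exact app_mul h6 h1 (by norm_num [abs_of_nonneg])
  have h8 : |t^8 - (19768620941361213/10000000000000)| ≤ (1/250000000) := by
    have e : t^8 = t^7 * t := by ring
    rw [e]; exact app_mul h7 h1 (by norm_num [abs_of_nonneg])
  exact ⟨h2, h3, h4, h5, h6, h7, h8⟩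

theorem Sf_app (t : ℝ) (h1 : |t - (51644852620777/20000000000000)| ≤ (1/20000000000000)) : |Sf t - (-126805092633/250000000000)| ≤ (3/1000000000) := by
  obtain ⟨h2, h3, h4, h5, h6, h7, h8⟩ := pow_bounds t h1
  rw [abs_le] at h1 h2 h3 h4 h5 h6 h7 h8 ⊢
  unfold Sf
  constructor <;> linarith [h1.1, h1.2, h2.1, h2.2, h3.1, h3.2, h4.1, h4.2, h5.1, h5.2, h6.1, h6.2, h7.1, h7.2]

theorem bf_app (t : ℝ) (h1 : |t - (51644852620777/20000000000000)| ≤ (1/20000000000000)) : |bf t - (-910230367809/500000000000)| ≤ (1/250000000) := by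
  obtain ⟨h2, h3, h4, h5, h6, h7, h8⟩ := pow_bounds t h1
  rw [abs_le] at h1 h2 h3 h4 h5 h6 h7 h8 ⊢
  unfold bf
  constructor <;> linarith [h1.1, h1.2, h2.1, h2.2, h3.1, h3.2, h4.1, h4.2, h5.1, h5.2, h6.1, h6.2, h7.1, h7.2]

theorem Wf_app (t : ℝ) (h1 : |t - (51644852620777/20000000000000)| ≤ (1/20000000000000)) : |Wf t - (82728378117/1000000000000)| ≤ (7/10000000000) := by
  obtain ⟨h2, h3, h4, h5, h6, h7, h8⟩ := pow_bounds t h1
  rw [abs_le] at h1 h2 h3 h4 h5 h6 h7 h8 ⊢
  unfold Wf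
  constructor <;> linarith [h1.1, h1.2, h2.1, h2.2, h3.1, h3.2, h4.1, h4.2, h5.1, h5.2, h6.1, h6.2, h7.1, h7.2]

theorem Rf_app (t : ℝ) (h1 : |t - (51644852620777/20000000000000)| ≤ (1/20000000000000)) : |Rf t - (795460829/500000000000)| ≤ (3/5000000000) := by
  obtain ⟨h2, h3, h4, h5, h6, h7, h8⟩ := pow_bounds t h1
  rw [abs_le] at h1 h2 h3 h4 h5 h6 h7 h8 ⊢
  unfold Rf
  constructor <;> linarith [h1.1, h1.2, h2.1, h2.2, h3.1, h3.2, h4.1, h4.2, h5.1, h5.2, h6.1, h6.2, h7.1, h7.2]

theorem e_app (t : ℝ) (h1 : |t - (51644852620777/20000000000000)| ≤ (1/20000000000000)) : |Real.sqrt (t^2/4 - 1) - (163339432029/200000000000)| ≤ (1/250000000000) := by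
  obtain ⟨h2, -⟩ := pow_bounds t h1
  have h : |t^2/4 - 1 - (3334971256943/5000000000000)| ≤ (1/8000000000000) := by
    rw [abs_le] at h2 ⊢; constructor <;> linarith [h2.1, h2.2]
  exact app_sqrt h (by norm_num) (by norm_num) (by norm_num) (by norm_num)

/-- numerical enclosures -/
theorem num (t e : ℝ) (h1 : |t - (51644852620777/20000000000000)| ≤ (1/20000000000000)) (he : |e - (163339432029/200000000000)| ≤ (1/250000000000)) :
    |mf t e - (237212077687/1000000000000)| ≤ (1/250000000000) ∧ |mf t (-e) - (131738654729/125000000000)| ≤ (1/250000000000) ∧ |cf t e - (489772371201/1000000000000)| ≤ (3/500000000) ∧ |cf t (-e) - (-996992741733/1000000000000)| ≤ (3/500000000) ∧ |wf t e - (168910078679/2500000000000)| ≤ (7/10000000000) := by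
  have hS := Sf_app t h1
  have hb := bf_app t h1
  have hW := Wf_app t h1
  have hm : |(t/2 - e)/2 - (237212077687/1000000000000)| ≤ (1/250000000000) := by
    rw [abs_le] at h1 he ⊢; constructor <;> linarith [h1.1, h1.2, he.1, he.2]
  have hm1 : |(t/2 - -e)/2 - (131738654729/125000000000)| ≤ (1/250000000000) := by
    rw [abs_le] at h1 he ⊢; constructor <;> linarith [h1.1, h1.2, he.1, he.2]
  have hbe : |bf t * e - (-14867651129347/10000000000000)| ≤ (1/200000000) := app_mul hb he (by norm_num [abs_of_nonneg, abs_of_nonpos, abs_of_neg])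
  have hcD : |(Sf t - bf t * e)/2 - (489772371201/1000000000000)| ≤ (3/500000000) := by
    rw [abs_le] at hS hbe ⊢; constructor <;> linarith [hS.1, hS.2, hbe.1, hbe.2]
  have hcP : |(Sf t - bf t * -e)/2 - (-996992741733/1000000000000)| ≤ (3/500000000) := by
    rw [abs_le] at hS hbe ⊢; constructor <;> linarith [hS.1, hS.2, hbe.1, hbe.2]
  have hw : |Wf t * e - (168910078679/2500000000000)| ≤ (7/10000000000) := app_mul hW he (by norm_num [abs_of_nonneg, abs_of_nonpos, abs_of_neg])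
  exact ⟨hm, hm1, hcD, hcP, hw⟩

end Pool.Agent.Helper81.RB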