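import Pool.Agent.Helper81.RB.Num

set_option autoImplicit false
set_option maxRecDepth 100000

namespace Pool.Agent.Helper81.RB

theorem app_div {x y x0 y0 ε δ z0 η b : ℝ} (hx : |x - x0| ≤ ε) (hy : |y - y0| ≤ δ) (hb : 0 < b)
    (hyb : b ≤ y) (h : |x0 - z0 * y0| + ε + |z0| * δ ≤ η * b) : |x / y - z0| ≤ η := by
  have hy0 : 0 < y := lt_of_lt_of_le hb hyb
  have e1 : x / y - z0 = (x - z0 * y) / y := by field_simp
  rw [e1, abs_div, abs_of_pos hy0, div_le_iff₀ hy0]
  have e2 : x - z0 * y = (x0 - z0 * y0) + (x - x0) + (-z0) * (y - y0) := by ring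
  have a1 := abs_add_le ((x0 - z0 * y0) + (x - x0)) ((-z0) * (y - y0))
  have a2 := abs_add_le (x0 - z0 * y0) (x - x0)
  have h3 : |(-z0) * (y - y0)| ≤ |z0| * δ := by
    rw [abs_mul, abs_neg]; exact mul_le_mul_of_nonneg_left hy (abs_nonneg _)
  have hε : 0 ≤ ε := le_trans (abs_nonneg _) hx
  have hδ : 0 ≤ δ := le_trans (abs_nonneg _) hy
  have hη : 0 ≤ η := by
    have h0 : 0 ≤ |x0 - z0 * y0| + ε + |z0| * δ := by positivity
    exact nonneg_of_mul_nonneg_left (le_trans h0 h) hb
  have h4 : η * b ≤ η * y := mul_le_mul_of_nonneg_left hyb hη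
  rw [e2]
  linarith

theorem sD_app (cD : ℝ) (h : |cD - (489772371201/1000000000000)| ≤ (3/500000000)) : |Real.sqrt (1 - cD^2) - (87185034519/100000000000)| ≤ (3/500000000) := by
  have h2 : |cD * cD - (2398769755919/10000000000000)| ≤ (7/1000000000) := app_mul h h (by norm_num [abs_of_nonneg])
  have h3 : |1 - cD^2 - (7601230244081/10000000000000)| ≤ (7/1000000000) := by
    rw [abs_le] at h2 ⊢; constructor <;> linarith [h2.1, h2.2]
  exact app_sqrt h3 (by norm_num) (by norm_num) (by norm_num) (by norm_num)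

theorem sP_app (w sD : ℝ) (hw : |w - (168910078679/2500000000000)| ≤ (7/10000000000)) (hs : |sD - (87185034519/100000000000)| ≤ (3/500000000)) : |w / sD - (1549899747/20000000000)| ≤ (3/1000000000) := by
  have hb : (87/100 : ℝ) ≤ sD := by
    rw [abs_le] at hs; linarith [hs.1]
  exact app_div hw hs (by norm_num) hb (by norm_num [abs_of_nonneg, abs_of_nonpos, abs_of_neg])

theorem r_app (R : ℝ) (h : |R - (795460829/500000000000)| ≤ (3/5000000000)) : |Real.sqrt R - (39886359297/1000000000000)| ≤ (11/1000000000) :=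
  app_sqrt h (by norm_num) (by norm_num) (by norm_num) (by norm_num)

theorem num2 (m m1 cD sD cP sP : ℝ)
    (hm : |m - (237212077687/1000000000000)| ≤ (1/250000000000))
    (hm1 : |m1 - (131738654729/125000000000)| ≤ (1/250000000000))
    (hcD : |cD - (489772371201/1000000000000)| ≤ (3/500000000))
    (hsD : |sD - (87185034519/100000000000)| ≤ (3/500000000))
    (hcP : |cP - (-996992741733/1000000000000)| ≤ (3/500000000))
    (hsP : |sP - (1549899747/20000000000)| ≤ (3/1000000000)) :
    |m1 * cP + 1 - m^2 * (cD^2 - sD^2) - (-2146583921/100000000000)| ≤ (3/100000000) ∧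
    |m1 * sP - m^2 * (2 * cD * sD) - (42021933/1250000000)| ≤ (1/125000000) ∧
    |m * cD + 1 - m1^2 * (cP^2 - sP^2) - (375921887/20000000000)| ≤ (9/100000000) ∧
    |-(m * sD) - m1^2 * (2 * cP * sP) - (-3517994461/100000000000)| ≤ (3/100000000) := by
  have a1 : |m * m - (281347849003/5000000000000)| ≤ (3/1000000000000) := app_mul hm hm (by norm_num [abs_of_nonneg, abs_of_nonpos, abs_of_neg])
  have a2 : |m1 * m1 - (2776811703969/2500000000000)| ≤ (1/100000000000) := app_mul hm1 hm1 (by norm_num [abs_of_nonneg, abs_of_nonpos, abs_of_neg])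
  have a3 : |cD * cD - (2398769755919/10000000000000)| ≤ (7/1000000000) := app_mul hcD hcD (by norm_num [abs_of_nonneg, abs_of_nonpos, abs_of_neg])
  have a4 : |sD * sD - (7601230244079/10000000000000)| ≤ (3/100000000) := app_mul hsD hsD (by norm_num [abs_of_nonneg, abs_of_nonpos, abs_of_neg])
  have a5 : |cD * sD - (4270082108961/10000000000000)| ≤ (1/100000000) := app_mul hcD hsD (by norm_num [abs_of_nonneg, abs_of_nonpos, abs_of_neg])
  have a6 : |cP * cP - (9939945270683/10000000000000)| ≤ (3/100000000) := app_mul hcP hcP (by norm_num [abs_of_nonneg, abs_of_nonpos, abs_of_neg])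
  have a7 : |sP * sP - (15013682661/2500000000000)| ≤ (3/5000000000) := app_mul hsP hsP (by norm_num [abs_of_nonneg, abs_of_nonpos, abs_of_neg])
  have a8 : |cP * sP - (-386309699543/5000000000000)| ≤ (1/200000000) := app_mul hcP hsP (by norm_num [abs_of_nonneg, abs_of_nonpos, abs_of_neg])
  have b1 : |cD * cD - sD * sD - (-32515378051/62500000000)| ≤ (1/20000000) := by
    rw [abs_le] at a3 a4 ⊢; constructor <;> linarith [a3.1, a3.2, a4.1, a4.2]
  have b2 : |cP * cP - sP * sP - (246997263501/250000000000)| ≤ (1/20000000) := by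
    rw [abs_le] at a6 a7 ⊢; constructor <;> linarith [a6.1, a6.2, a7.1, a7.2]
  have c1 : |(m * m) * (cD * cD - sD * sD) - (-292740213573/10000000000000)| ≤ (1/250000000) := app_mul a1 b1 (by norm_num [abs_of_nonneg, abs_of_nonpos, abs_of_neg])
  have c2 : |(m * m) * (cD * sD) - (60068920821/2500000000000)| ≤ (7/10000000000) := app_mul a1 a5 (by norm_num [abs_of_nonneg, abs_of_nonpos, abs_of_neg])
  have c3 : |(m1 * m1) * (cP * cP - sP * sP) - (5486919137103/5000000000000)| ≤ (7/100000000) := app_mul a2 b2 (by norm_num [abs_of_nonneg, abs_of_nonpos, abs_of_neg])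
  have c4 : |(m1 * m1) * (cP * sP) - (-429083718019/5000000000000)| ≤ (7/1000000000) := app_mul a2 a8 (by norm_num [abs_of_nonneg, abs_of_nonpos, abs_of_neg])
  have d1 : |m1 * cP - (-10507398605639/10000000000000)| ≤ (1/125000000) := app_mul hm1 hcP (by norm_num [abs_of_nonneg, abs_of_nonpos, abs_of_neg])
  have d2 : |m1 * sP - (408363415269/5000000000000)| ≤ (1/200000000) := app_mul hm1 hsP (by norm_num [abs_of_nonneg, abs_of_nonpos, abs_of_neg])
  have d3 : |m * cD - (1161799217663/10000000000000)| ≤ (3/1000000000) := app_mul hm hcD (by norm_num [abs_of_nonneg, abs_of_nonpos, abs_of_neg])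
  have d4 : |m * sD - (1034067159073/5000000000000)| ≤ (3/1000000000) := app_mul hm hsD (by norm_num [abs_of_nonneg, abs_of_nonpos, abs_of_neg])
  have e1 : |m1 * cP + 1 - m^2 * (cD^2 - sD^2) - (-2146583921/100000000000)| ≤ (3/100000000) := by
    rw [abs_le] at d1 c1 ⊢; constructor <;> linarith [d1.1, d1.2, c1.1, c1.2]
  have e2 : |m1 * sP - m^2 * (2 * cD * sD) - (42021933/1250000000)| ≤ (1/125000000) := by
    rw [abs_le] at d2 c2 ⊢; constructor <;> linarith [d2.1, d2.2, c2.1, c2.2]
  have e3 : |m * cD + 1 - m1^2 * (cP^2 - sP^2) - (375921887/20000000000)| ≤ (9/100000000) := by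
    rw [abs_le] at d3 c3 ⊢; constructor <;> linarith [d3.1, d3.2, c3.1, c3.2]
  have e4 : |-(m * sD) - m1^2 * (2 * cP * sP) - (-3517994461/100000000000)| ≤ (3/100000000) := by
    rw [abs_le] at d4 c4 ⊢; constructor <;> linarith [d4.1, d4.2, c4.1, c4.2]
  exact ⟨e1, e2, e3, e4⟩

end Pool.Agent.Helper81.RB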