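import Pool.Agent.Helper81.RB.Cyc

set_option autoImplicit false
set_option maxRecDepth 100000

namespace Pool.Agent.Helper81.RB

theorem num3 {m m1 cD sD cP sP uR uI vR vI r : ℝ} (C : Cyc m m1 cD sD cP sP uR uI vR vI r) :
    |-vI / r - (176400881/200000000)| ≤ (11/10000000) ∧
    |vR / r - (471241163/1000000000)| ≤ (1/250000) ∧
    |uI / r - (210708291/250000000)| ≤ (3/5000000) ∧
    |uR / r - (-107634989/200000000)| ≤ (11/10000000) ∧
    |m * sD / (-vI / r) - (117240589/500000000)| ≤ (1/2500000) ∧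
    |m1 * sP / (uI / r) - (1938051/20000000)| ≤ (9/100000000) ∧
    |m * cD - m * sD / (-vI / r) * (vR / r) - (5682739/1000000000)| ≤ (1/200000) ∧
    |m1 * cP - m1 * sP / (uI / r) * (uR / r) - (-124823667/125000000)| ≤ (1/2000000) := by
  obtain ⟨-, -, -, -, -, -, -, -, -, -, -, -, -, nm, nm1, ncD, nsD, ncP, nsP, nr, nuR, nuI, nvR, nvI⟩ := C
  have nvI' : |-vI - (3517994461/100000000000)| ≤ (3/100000000) := by rw [abs_le] at nvI ⊢; constructor <;> linarith [nvI.1, nvI.2]
  have br : (19923/500000) ≤ r := by rw [abs_le] at nr; linarith [nr.1]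
  have hs0 : |-vI / r - (176400881/200000000)| ≤ (11/10000000) := app_div (b := (19923/500000)) nvI' nr (by norm_num) br (by norm_num [abs_of_nonneg, abs_of_nonpos, abs_of_neg])
  have br2 : (19923/500000) ≤ r := by rw [abs_le] at nr; linarith [nr.1]
  have hc0 : |vR / r - (471241163/1000000000)| ≤ (1/250000) := app_div (b := (19923/500000)) nvR nr (by norm_num) br2 (by norm_num [abs_of_nonneg, abs_of_nonpos, abs_of_neg])
  have br3 : (19923/500000) ≤ r := by rw [abs_le] at nr; linarith [nr.1]
  have hs1 : |uI / r - (210708291/250000000)| ≤ (3/5000000) := app_div (b := (19923/500000)) nuI nr (by norm_num) br3 (by norm_num [abs_of_nonneg, abs_of_nonpos, abs_of_neg])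
  have br4 : (19923/500000) ≤ r := by rw [abs_le] at nr; linarith [nr.1]
  have hc1 : |uR / r - (-107634989/200000000)| ≤ (11/10000000) := app_div (b := (19923/500000)) nuR nr (by norm_num) br4 (by norm_num [abs_of_nonneg, abs_of_nonpos, abs_of_neg])
  have k1 : |m * sD - (1034067159/5000000000)| ≤ (3/1000000000) := app_mul nm nsD (by norm_num [abs_of_nonneg, abs_of_nonpos, abs_of_neg])
  have k2 : |m * cD - (580899609/5000000000)| ≤ (3/1000000000) := app_mul nm ncD (by norm_num [abs_of_nonneg, abs_of_nonpos, abs_of_neg])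
  have k3 : |m1 * sP - (816726831/10000000000)| ≤ (1/200000000) := app_mul nm1 nsP (by norm_num [abs_of_nonneg, abs_of_nonpos, abs_of_neg])
  have k4 : |m1 * cP - (-5253699303/5000000000)| ≤ (1/125000000) := app_mul nm1 ncP (by norm_num [abs_of_nonneg, abs_of_nonpos, abs_of_neg])
  have bs0 : (881121/1000000) ≤ -vI / r := by rw [abs_le] at hs0; linarith [hs0.1]
  have hrho : |m * sD / (-vI / r) - (117240589/500000000)| ≤ (1/2500000) := app_div (b := (881121/1000000)) k1 hs0 (by norm_num) bs0 (by norm_num [abs_of_nonneg, abs_of_nonpos, abs_of_neg])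
  have bs1 : (84199/100000) ≤ uI / r := by rw [abs_le] at hs1; linarith [hs1.1]
  have hsig : |m1 * sP / (uI / r) - (1938051/20000000)| ≤ (9/100000000) := app_div (b := (84199/100000)) k3 hs1 (by norm_num) bs1 (by norm_num [abs_of_nonneg, abs_of_nonpos, abs_of_neg])
  have k5 : |m * sD / (-vI / r) * (vR / r) - (110497183/1000000000)| ≤ (3/1000000) := app_mul hrho hc0 (by norm_num [abs_of_nonneg, abs_of_nonpos, abs_of_neg])
  have k6 : |m1 * sP / (uI / r) * (uR / r) - (-104301049/2000000000)| ≤ (3/10000000) := app_mul hsig hc1 (by norm_num [abs_of_nonneg, abs_of_nonpos, abs_of_neg])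
  have ha : |m * cD - m * sD / (-vI / r) * (vR / r) - (5682739/1000000000)| ≤ (1/200000) := by
    rw [abs_le] at k2 k5 ⊢; constructor <;> linarith [k2.1, k2.2, k5.1, k5.2]
  have hb : |m1 * cP - m1 * sP / (uI / r) * (uR / r) - (-124823667/125000000)| ≤ (1/2000000) := by
    rw [abs_le] at k4 k6 ⊢; constructor <;> linarith [k4.1, k4.2, k6.1, k6.2]
  exact ⟨hs0, hc0, hs1, hc1, hrho, hsig, ha, hb⟩

end Pool.Agent.Helper81.RB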