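import Pool.Agent.Helper81.RB.Lower

set_option autoImplicit false
set_option maxRecDepth 100000

namespace Pool.Agent.Helper81.RB

theorem num4 {m m1 cD sD cP sP uR uI vR vI r : ℝ} (C : Cyc m m1 cD sD cP sP uR uI vR vI r) :
    |cD^2 - sD^2 - (-650307561/1250000000)| ≤ (1/20000000) ∧
    |2 * cD * sD - (4270082109/5000000000)| ≤ (3/100000000) ∧
    |(cD^2 - sD^2)^2 - (2 * cD * sD)^2 - (-2293440487/5000000000)| ≤ (3/10000000) ∧
    |2 * (cD^2 - sD^2) * (2 * cD * sD) - (-8885973381/10000000000)| ≤ (3/10000000) ∧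
    |2 * ((cD^2 - sD^2) * (uR - 1) - (2 * cD * sD) * uI) - (10054072603/10000000000)| ≤ (3/10000000) ∧
    |2 * ((cD^2 - sD^2) * uI + (2 * cD * sD) * (uR - 1)) - (-17796759933/10000000000)| ≤ (3/10000000) := by
  obtain ⟨-, -, -, -, -, -, -, -, -, -, -, -, -, nm, nm1, ncD, nsD, ncP, nsP, nr, nuR, nuI, nvR, nvI⟩ := C
  have k1 : |cD * cD - (23987697559/100000000000)| ≤ (7/1000000000) := app_mul ncD ncD (by norm_num [abs_of_nonneg, abs_of_nonpos, abs_of_neg])
  have k2 : |sD * sD - (76012302441/100000000000)| ≤ (3/100000000) := app_mul nsD nsD (by norm_num [abs_of_nonneg, abs_of_nonpos, abs_of_neg])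
  have k3 : |cD * sD - (4270082109/10000000000)| ≤ (1/100000000) := app_mul ncD nsD (by norm_num [abs_of_nonneg, abs_of_nonpos, abs_of_neg])
  have hp2 : |cD^2 - sD^2 - (-650307561/1250000000)| ≤ (1/20000000) := by
    rw [abs_le] at k1 k2 ⊢; constructor <;> linarith [k1.1, k1.2, k2.1, k2.2]
  have hq2 : |2 * cD * sD - (4270082109/5000000000)| ≤ (3/100000000) := by
    rw [abs_le] at k3 ⊢; constructor <;> linarith [k3.1, k3.2]
  have k4 : |(cD^2 - sD^2) * (cD^2 - sD^2) - (27065595129/100000000000)| ≤ (7/100000000) := app_mul hp2 hp2 (by norm_num [abs_of_nonneg, abs_of_nonpos, abs_of_neg])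
  have k5 : |(2 * cD * sD) * (2 * cD * sD) - (7293440487/10000000000)| ≤ (7/100000000) := app_mul hq2 hq2 (by norm_num [abs_of_nonneg, abs_of_nonpos, abs_of_neg])
  have k6 : |(cD^2 - sD^2) * (2 * cD * sD) - (-8885973381/20000000000)| ≤ (7/100000000) := app_mul hp2 hq2 (by norm_num [abs_of_nonneg, abs_of_nonpos, abs_of_neg])
  have hp4 : |(cD^2 - sD^2)^2 - (2 * cD * sD)^2 - (-2293440487/5000000000)| ≤ (3/10000000) := by
    rw [abs_le] at k4 k5 ⊢; constructor <;> linarith [k4.1, k4.2, k5.1, k5.2]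
  have hq4 : |2 * (cD^2 - sD^2) * (2 * cD * sD) - (-8885973381/10000000000)| ≤ (3/10000000) := by
    rw [abs_le] at k6 ⊢; constructor <;> linarith [k6.1, k6.2]
  have hu1 : |uR - 1 - (-1276832299/1250000000)| ≤ (1/20000000) := by
    rw [abs_le] at nuR ⊢; constructor <;> linarith [nuR.1, nuR.2]
  have k7 : |(cD^2 - sD^2) * (uR - 1) - (53141356683/100000000000)| ≤ (9/100000000) := app_mul hp2 hu1 (by norm_num [abs_of_nonneg, abs_of_nonpos, abs_of_neg])
  have k8 : |(2 * cD * sD) * uI - (2870993669/100000000000)| ≤ (9/1000000000) := app_mul hq2 nuI (by norm_num [abs_of_nonneg, abs_of_nonpos, abs_of_neg])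
  have k9 : |(cD^2 - sD^2) * uI - (-109308723/6250000000)| ≤ (7/1000000000) := app_mul hp2 nuI (by norm_num [abs_of_nonneg, abs_of_nonpos, abs_of_neg])
  have k10 : |(2 * cD * sD) * (uR - 1) - (-43617430049/50000000000)| ≤ (9/100000000) := app_mul hq2 hu1 (by norm_num [abs_of_nonneg, abs_of_nonpos, abs_of_neg])
  have ha2 : |2 * ((cD^2 - sD^2) * (uR - 1) - (2 * cD * sD) * uI) - (10054072603/10000000000)| ≤ (3/10000000) := by
    rw [abs_le] at k7 k8 ⊢; constructor <;> linarith [k7.1, k7.2, k8.1, k8.2]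
  have hb2 : |2 * ((cD^2 - sD^2) * uI + (2 * cD * sD) * (uR - 1)) - (-17796759933/10000000000)| ≤ (3/10000000) := by
    rw [abs_le] at k9 k10 ⊢; constructor <;> linarith [k9.1, k9.2, k10.1, k10.2]
  exact ⟨hp2, hq2, hp4, hq4, ha2, hb2⟩

theorem num5 (m cD sD vR vI p4 q4 a2 b2 : ℝ)
    (nm : |m - (237212077687/1000000000000)| ≤ (1/250000000000))
    (ncD : |cD - (489772371201/1000000000000)| ≤ (3/500000000))
    (nsD : |sD - (87185034519/100000000000)| ≤ (3/500000000))
    (nvR : |vR - (375921887/20000000000)| ≤ (9/100000000))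
    (nvI : |vI - (-3517994461/100000000000)| ≤ (3/100000000))
    (hp4 : |p4 - (-2293440487/5000000000)| ≤ (3/10000000))
    (hq4 : |q4 - (-8885973381/10000000000)| ≤ (3/10000000))
    (ha2 : |a2 - (10054072603/10000000000)| ≤ (3/10000000))
    (hb2 : |b2 - (-17796759933/10000000000)| ≤ (3/10000000))
    : |((m^3 * p4 + m * a2 - cD) * (m^3 * p4 + m * a2 - cD) + (m^3 * q4 + m * b2 + sD) * (m^3 * q4 + m * b2 + sD)) - 2 * (3 * (vR * (m^2 * p4) + vI * (m^2 * q4)) + (vR * a2 + vI * b2)) - (87292261/1000000000)| ≤ (3/1000000) ∧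
    |2 * ((m^2 * p4 + a2) * (m^3 * p4 + m * a2 - cD) + (m^2 * q4 + b2) * (m^3 * q4 + m * b2 + sD)) - 4 * (vR * (m * p4) + vI * (m * q4)) - (-106397441/50000000)| ≤ (1/200000) ∧
    |((m^2 * p4 + a2) * (m^2 * p4 + a2) + (m^2 * q4 + b2) * (m^2 * q4 + b2)) + 2 * ((m * p4) * (m^3 * p4 + m * a2 - cD) + (m * q4) * (m^3 * q4 + m * b2 + sD)) - 2 * (vR * p4 + vI * q4) - (2066743453/500000000)| ≤ (7/1000000) ∧
    |2 * ((p4) * (m^3 * p4 + m * a2 - cD) + (q4) * (m^3 * q4 + m * b2 + sD)) + 2 * ((m * p4) * (m^2 * p4 + a2) + (m * q4) * (m^2 * q4 + b2)) - (16193489/1000000000)| ≤ (1/200000) ∧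
    |((m * p4) * (m * p4) + (m * q4) * (m * q4)) + 2 * ((p4) * (m^2 * p4 + a2) + (q4) * (m^2 * q4 + b2)) - (2409302723/1000000000)| ≤ (1/200000) ∧
    |2 * ((p4) * (m * p4) + (q4) * (m * q4)) - (94884831/200000000)| ≤ (9/10000000) ∧
    |((p4) * (p4) + (q4) * (q4)) - 1| ≤ (3/1000000) := by
  have g1 : |m * m - (281347849/5000000000)| ≤ (1/250000000000) := app_mul nm nm (by norm_num [abs_of_nonneg, abs_of_nonpos, abs_of_neg])
  have g2 : |(m * m) * m - (333695539/25000000000)| ≤ (1/200000000000) := app_mul g1 nm (by norm_num [abs_of_nonneg, abs_of_nonpos, abs_of_neg])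
  have d2R : |m * p4 - (-10880635659/100000000000)| ≤ (9/100000000) := app_mul nm hp4 (by norm_num [abs_of_nonneg, abs_of_nonpos, abs_of_neg])
  have d2I : |m * q4 - (-131741263/625000000)| ≤ (9/100000000) := app_mul nm hq4 (by norm_num [abs_of_nonneg, abs_of_nonpos, abs_of_neg])
  have g3 : |(m * m) * p4 - (-2581018191/100000000000)| ≤ (3/100000000) := app_mul g1 hp4 (by norm_num [abs_of_nonneg, abs_of_nonpos, abs_of_neg])
  have g4 : |(m * m) * q4 - (-2500049497/50000000000)| ≤ (3/100000000) := app_mul g1 hq4 (by norm_num [abs_of_nonneg, abs_of_nonpos, abs_of_neg])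
  have d1R : |m^2 * p4 + a2 - (306124087/312500000)| ≤ (1/2000000) := by
    rw [abs_le] at g3 ha2 ⊢; constructor <;> linarith [g3.1, g3.2, ha2.1, ha2.2]
  have d1I : |m^2 * q4 + b2 - (-2287096229/1250000000)| ≤ (1/2000000) := by
    rw [abs_le] at g4 hb2 ⊢; constructor <;> linarith [g4.1, g4.2, hb2.1, hb2.2]
  have g5 : |((m * m) * m) * p4 - (-38265543/6250000000)| ≤ (3/500000000) := app_mul g2 hp4 (by norm_num [abs_of_nonneg, abs_of_nonpos, abs_of_neg])
  have g6 : |((m * m) * m) * q4 - (-1186083871/100000000000)| ≤ (3/500000000) := app_mul g2 hq4 (by norm_num [abs_of_nonneg, abs_of_nonpos, abs_of_neg])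
  have g7 : |m * a2 - (11924737257/50000000000)| ≤ (9/100000000) := app_mul nm ha2 (by norm_num [abs_of_nonneg, abs_of_nonpos, abs_of_neg])
  have g8 : |m * b2 - (-21108031999/50000000000)| ≤ (9/100000000) := app_mul nm hb2 (by norm_num [abs_of_nonneg, abs_of_nonpos, abs_of_neg])
  have d0R : |m^3 * p4 + m * a2 - cD - (-2574001129/10000000000)| ≤ (3/10000000) := by
    rw [abs_le] at g5 g7 ncD ⊢; constructor <;> linarith [g5.1, g5.2, g7.1, g7.2, ncD.1, ncD.2]
  have d0I : |m^3 * q4 + m * b2 + sD - (875657733/2000000000)| ≤ (3/10000000) := by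
    rw [abs_le] at g6 g8 nsD ⊢; constructor <;> linarith [g6.1, g6.2, g8.1, g8.2, nsD.1, nsD.2]
  have w1a : |(p4) * (p4) - (2103947707/10000000000)| ≤ (1/2500000) := app_mul hp4 hp4 (by norm_num [abs_of_nonneg, abs_of_nonpos, abs_of_neg])
  have w1b : |(q4) * (q4) - (4935032683/6250000000)| ≤ (7/10000000) := app_mul hq4 hq4 (by norm_num [abs_of_nonneg, abs_of_nonpos, abs_of_neg])
  have w2a : |(p4) * (m * p4) - (4990818069/100000000000)| ≤ (9/100000000) := app_mul hp4 d2R (by norm_num [abs_of_nonneg, abs_of_nonpos, abs_of_neg])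
  have w2b : |(q4) * (m * q4) - (18730389699/100000000000)| ≤ (3/10000000) := app_mul hq4 d2I (by norm_num [abs_of_nonneg, abs_of_nonpos, abs_of_neg])
  have w3a : |(m * p4) * (m * p4) - (1183882323/100000000000)| ≤ (3/100000000) := app_mul d2R d2R (by norm_num [abs_of_nonneg, abs_of_nonpos, abs_of_neg])
  have w3b : |(m * q4) * (m * q4) - (138846083/3125000000)| ≤ (1/20000000) := app_mul d2I d2I (by norm_num [abs_of_nonneg, abs_of_nonpos, abs_of_neg])
  have w4a : |(p4) * (m^2 * p4 + a2) - (-44932952011/100000000000)| ≤ (7/10000000) := app_mul hp4 d1R (by norm_num [abs_of_nonneg, abs_of_nonpos, abs_of_neg])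
  have w4b : |(q4) * (m^2 * q4 + b2) - (32516921937/20000000000)| ≤ (11/10000000) := app_mul hq4 d1I (by norm_num [abs_of_nonneg, abs_of_nonpos, abs_of_neg])
  have w5a : |(p4) * (m^3 * p4 + m * a2 - cD) - (5903318403/50000000000)| ≤ (1/2500000) := app_mul hp4 d0R (by norm_num [abs_of_nonneg, abs_of_nonpos, abs_of_neg])
  have w5b : |(q4) * (m^3 * q4 + m * b2 + sD) - (-9726339133/25000000000)| ≤ (1/2000000) := app_mul hq4 d0I (by norm_num [abs_of_nonneg, abs_of_nonpos, abs_of_neg])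
  have w6a : |(m * p4) * (m^2 * p4 + a2) - (-10658638903/100000000000)| ≤ (3/10000000) := app_mul d2R d1R (by norm_num [abs_of_nonneg, abs_of_nonpos, abs_of_neg])
  have w6b : |(m * q4) * (m^2 * q4 + b2) - (4820879133/12500000000)| ≤ (1/2500000) := app_mul d2I d1I (by norm_num [abs_of_nonneg, abs_of_nonpos, abs_of_neg])
  have w7a : |(m^2 * p4 + a2) * (m^2 * p4 + a2) - (95961043601/100000000000)| ≤ (11/10000000) := app_mul d1R d1R (by norm_num [abs_of_nonneg, abs_of_nonpos, abs_of_neg])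
  have w7b : |(m^2 * q4 + b2) * (m^2 * q4 + b2) - (66954357257/20000000000)| ≤ (3/1000000) := app_mul d1I d1I (by norm_num [abs_of_nonneg, abs_of_nonpos, abs_of_neg])
  have w8a : |(m * p4) * (m^3 * p4 + m * a2 - cD) - (2800676847/100000000000)| ≤ (7/100000000) := app_mul d2R d0R (by norm_num [abs_of_nonneg, abs_of_nonpos, abs_of_neg])
  have w8b : |(m * q4) * (m^3 * q4 + m * b2 + sD) - (-1153602557/12500000000)| ≤ (3/10000000) := app_mul d2I d0I (by norm_num [abs_of_nonneg, abs_of_nonpos, abs_of_neg])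
  have w9a : |(m^2 * p4 + a2) * (m^3 * p4 + m * a2 - cD) - (-12607419929/50000000000)| ≤ (3/5000000) := app_mul d1R d0R (by norm_num [abs_of_nonneg, abs_of_nonpos, abs_of_neg])
  have w9b : |(m^2 * q4 + b2) * (m^3 * q4 + m * b2 + sD) - (-40054269981/50000000000)| ≤ (9/10000000) := app_mul d1I d0I (by norm_num [abs_of_nonneg, abs_of_nonpos, abs_of_neg])
  have w10a : |(m^3 * p4 + m * a2 - cD) * (m^3 * p4 + m * a2 - cD) - (1656370453/25000000000)| ≤ (3/10000000) := app_mul d0R d0R (by norm_num [abs_of_nonneg, abs_of_nonpos, abs_of_neg])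
  have w10b : |(m^3 * q4 + m * b2 + sD) * (m^3 * q4 + m * b2 + sD) - (9584705817/50000000000)| ≤ (1/2500000) := app_mul d0I d0I (by norm_num [abs_of_nonneg, abs_of_nonpos, abs_of_neg])
  have w11a : |(vR) * (p4) - (-215538619/25000000000)| ≤ (3/50000000) := app_mul nvR hp4 (by norm_num [abs_of_nonneg, abs_of_nonpos, abs_of_neg])
  have w11b : |(vI) * (q4) - (3126080513/100000000000)| ≤ (1/20000000) := app_mul nvI hq4 (by norm_num [abs_of_nonneg, abs_of_nonpos, abs_of_neg])
  have w12a : |(vR) * (m * p4) - (-102256727/50000000000)| ≤ (3/100000000) := app_mul nvR d2R (by norm_num [abs_of_nonneg, abs_of_nonpos, abs_of_neg])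
  have w12b : |(vI) * (m * q4) - (370772027/50000000000)| ≤ (11/1000000000) := app_mul nvI d2I (by norm_num [abs_of_nonneg, abs_of_nonpos, abs_of_neg])
  have w13a : |(vR) * ((m * m) * p4) - (-48513061/100000000000)| ≤ (1/250000000) := app_mul nvR g3 (by norm_num [abs_of_nonneg, abs_of_nonpos, abs_of_neg])
  have w13b : |(vI) * ((m * m) * q4) - (87951603/50000000000)| ≤ (1/250000000) := app_mul nvI g4 (by norm_num [abs_of_nonneg, abs_of_nonpos, abs_of_neg])
  have w14a : |(vR) * (a2) - (472443243/25000000000)| ≤ (11/100000000) := app_mul nvR ha2 (by norm_num [abs_of_nonneg, abs_of_nonpos, abs_of_neg])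
  have w14b : |(vI) * (b2) - (6260890287/100000000000)| ≤ (1/12500000) := app_mul nvI hb2 (by norm_num [abs_of_nonneg, abs_of_nonpos, abs_of_neg])
  have c6 : |((p4) * (p4) + (q4) * (q4)) - 1| ≤ (3/1000000) := by
    rw [abs_le] at w1a w1b ⊢; constructor <;> linarith [w1a.1, w1a.2, w1b.1, w1b.2]
  have c5 : |2 * ((p4) * (m * p4) + (q4) * (m * q4)) - (94884831/200000000)| ≤ (9/10000000) := by
    rw [abs_le] at w2a w2b ⊢; constructor <;> linarith [w2a.1, w2a.2, w2b.1, w2b.2]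
  have c4 : |((m * p4) * (m * p4) + (m * q4) * (m * q4)) + 2 * ((p4) * (m^2 * p4 + a2) + (q4) * (m^2 * q4 + b2)) - (2409302723/1000000000)| ≤ (1/200000) := by
    rw [abs_le] at w3a w3b w4a w4b ⊢; constructor <;> linarith [w3a.1, w3a.2, w3b.1, w3b.2, w4a.1, w4a.2, w4b.1, w4b.2]
  have c3 : |2 * ((p4) * (m^3 * p4 + m * a2 - cD) + (q4) * (m^3 * q4 + m * b2 + sD)) + 2 * ((m * p4) * (m^2 * p4 + a2) + (m * q4) * (m^2 * q4 + b2)) - (16193489/1000000000)| ≤ (1/200000) := by
    rw [abs_le] at w5a w5b w6a w6b ⊢; constructor <;> linarith [w5a.1, w5a.2, w5b.1, w5b.2, w6a.1, w6a.2, w6b.1, w6b.2]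
  have c2 : |((m^2 * p4 + a2) * (m^2 * p4 + a2) + (m^2 * q4 + b2) * (m^2 * q4 + b2)) + 2 * ((m * p4) * (m^3 * p4 + m * a2 - cD) + (m * q4) * (m^3 * q4 + m * b2 + sD)) - 2 * (vR * p4 + vI * q4) - (2066743453/500000000)| ≤ (7/1000000) := by
    rw [abs_le] at w7a w7b w8a w8b w11a w11b ⊢; constructor <;> linarith [w7a.1, w7a.2, w7b.1, w7b.2, w8a.1, w8a.2, w8b.1, w8b.2, w11a.1, w11a.2, w11b.1, w11b.2]
  have c1 : |2 * ((m^2 * p4 + a2) * (m^3 * p4 + m * a2 - cD) + (m^2 * q4 + b2) * (m^3 * q4 + m * b2 + sD)) - 4 * (vR * (m * p4) + vI * (m * q4)) - (-106397441/50000000)| ≤ (1/200000) := by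
    rw [abs_le] at w9a w9b w12a w12b ⊢; constructor <;> linarith [w9a.1, w9a.2, w9b.1, w9b.2, w12a.1, w12a.2, w12b.1, w12b.2]
  have c0 : |((m^3 * p4 + m * a2 - cD) * (m^3 * p4 + m * a2 - cD) + (m^3 * q4 + m * b2 + sD) * (m^3 * q4 + m * b2 + sD)) - 2 * (3 * (vR * (m^2 * p4) + vI * (m^2 * q4)) + (vR * a2 + vI * b2)) - (87292261/1000000000)| ≤ (3/1000000) := by
    rw [abs_le] at w10a w10b w13a w13b w14a w14b ⊢; constructor <;> linarith [w10a.1, w10a.2, w10b.1, w10b.2, w13a.1, w13a.2, w13b.1, w13b.2, w14a.1, w14a.2, w14b.1, w14b.2]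
  exact ⟨c0, c1, c2, c3, c4, c5, c6⟩

theorem poly_neg (s e0 e1 e2 e3 e4 e5 e6 : ℝ) (hs : 1/10 ≤ s) (hs' : s ≤ 4/10)
    (h0 : |e0 - (87292261/1000000000)| ≤ (3/1000000))
    (h1 : |e1 - (-106397441/50000000)| ≤ (1/200000))
    (h2 : |e2 - (2066743453/500000000)| ≤ (7/1000000))
    (h3 : |e3 - (16193489/1000000000)| ≤ (1/200000))
    (h4 : |e4 - (2409302723/1000000000)| ≤ (1/200000))
    (h5 : |e5 - (94884831/200000000)| ≤ (9/10000000))
    (h6 : |e6 - 1| ≤ (3/1000000))
    : e0 + e1*s + e2*s^2 + e3*s^3 + e4*s^4 + e5*s^5 + e6*s^6 ≤ 0 := by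
  rw [abs_le] at h0 h1 h2 h3 h4 h5 h6
  have hs0 : 0 ≤ s := by linarith
  have g0 : e0 ≤ (87295261/1000000000) := by linarith [h0.2]
  have g1 : e1 * s ≤ (-106397191/50000000) * s := by
    apply mul_le_mul_of_nonneg_right _ (by positivity); linarith [h1.2]
  have g2 : e2 * s^2 ≤ (2066746953/500000000) * s^2 := by
    apply mul_le_mul_of_nonneg_right _ (by positivity); linarith [h2.2]
  have g3 : e3 * s^3 ≤ (16198489/1000000000) * s^3 := by
    apply mul_le_mul_of_nonneg_right _ (by positivity); linarith [h3.2]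
  have g4 : e4 * s^4 ≤ (2409307723/1000000000) * s^4 := by
    apply mul_le_mul_of_nonneg_right _ (by positivity); linarith [h4.2]
  have g5 : e5 * s^5 ≤ (94885011/200000000) * s^5 := by
    apply mul_le_mul_of_nonneg_right _ (by positivity); linarith [h5.2]
  have g6 : e6 * s^6 ≤ (1000003/1000000) * s^6 := by
    apply mul_le_mul_of_nonneg_right _ (by positivity); linarith [h6.2]
  have hK : 0 ≤ (944394800861/200000000000) + (28109637341/20000000000)*s + (5713041761/2000000000)*s^2 + (194885311/200000000)*s^3 + (1000003/1000000)*s^4 := by positivity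
  have hprod : (s - 1/10) * (s - 4/10) * ((944394800861/200000000000) + (28109637341/20000000000)*s + (5713041761/2000000000)*s^2 + (194885311/200000000)*s^3 + (1000003/1000000)*s^4) ≤ 0 := by
    apply mul_nonpos_of_nonpos_of_nonneg _ hK
    nlinarith
  have hchord : (-507918495861/5000000000000) + (353647814941/2000000000000) * s ≤ 0 := by linarith
  have hid : (87295261/1000000000) + (-106397191/50000000) * s + (2066746953/500000000) * s^2 + (16198489/1000000000) * s^3 + (2409307723/1000000000) * s^4 + (94885011/200000000) * s^5 + (1000003/1000000) * s^6 = (s - 1/10) * (s - 4/10) * ((944394800861/200000000000) + (28109637341/20000000000)*s + (5713041761/2000000000)*s^2 + (194885311/200000000)*s^3 + (1000003/1000000)*s^4) + ((-507918495861/5000000000000) + (353647814941/2000000000000) * s) := by ring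
  linarith

end Pool.Agent.Helper81.RB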